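import Pool.Agent.H.MP_28492a_gt.Stab

set_option autoImplicit false

namespace Pool.Agent.H.MP_28492a_gt

open Filter Topology MeasureTheory Set Multiplicative Metric
open Pool.Agent.H.MP_bf94fe_gt (ind ind_le ind_pos ind_neg)

variable {n : ℕ}

noncomputable def It (a : E n → ℕ) : ENNReal := ∫⁻ x, (a x : ENNReal)

lemma It_mono {a b : E n → ℕ} (h : ∀ᵐ x, a x ≤ b x) : It a ≤ It b :=
  lintegral_mono_ae (h.mono fun _ hx => Nat.cast_le.2 hx)

lemma It_add {a : E n → ℕ} (h : Lm a) (b : E n → ℕ) : It (fun x => a x + b x) = It a + It b := by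
  simp only [It, Nat.cast_add]
  exact lintegral_add_left' (h.comp fun a => (a : ENNReal)).aemeasurable _

lemma It_ind {p : E n → Prop} (h : Lm p) : It (fun x => ind (p x)) = volume {x | p x} := by
  rw [← lintegral_indicator_one₀ h.null]
  refine lintegral_congr fun x => ?_
  by_cases c : p x <;> simp [ind, c]

lemma Eqd.it {G : Type} [Group G] [MulAction G (E n)] [ContinuousConstSMul G (E n)] [QI G (E n)]
    {a b : E n → ℕ} (h : Eqd G a b) : It a = It b := by
  obtain ⟨m, γ, π, h1, h2, h3⟩ := h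
  have e : ∀ {ρ : Fin m → E n → ℕ} {a : E n → ℕ}, (∀ i, Lm (ρ i)) → (∀ᵐ x, ∑ i, ρ i x = a x) →
      It a = ∑ i, It (ρ i) := fun {ρ a} l e => by
    unfold It
    rw [← lintegral_finset_sum' _ fun i _ => ((l i).comp fun a => (a : ENNReal)).aemeasurable]
    exact lintegral_congr_ae (e.mono fun x hx => by simp [← hx])
  rw [e h1 h2, e (fun i => (h1 i).smul _) h3]
  exact Finset.sum_congr rfl fun i _ => ((QI.mp (γ i)⁻¹).lintegral_comp_emb
    (Homeomorph.smul (γ i)⁻¹).measurableEmbedding fun x => (π i x : ENNReal)).symm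

def Qb (δ : ℝ) (m : Fin n → ℤ) : Set (E n) := Bx (fun i => m i * δ) δ

noncomputable def idx (δ : ℝ) (x : E n) : Fin n → ℤ := fun i => ⌈x i / δ⌉ - 1

variable {δ : ℝ}

lemma mem_Qb (hδ : 0 < δ) {m : Fin n → ℤ} {x : E n} : x ∈ Qb δ m ↔ idx δ x = m := by
  rw [funext_iff]
  refine forall_congr' fun i => ?_
  rw [idx, sub_eq_iff_eq_add, Int.ceil_eq_iff, lt_div_iff₀ hδ, div_le_iff₀ hδ, mem_Ioc]
  push_cast
  rw [add_sub_cancel_right, add_mul, one_mul]

lemma Qb_dist (hδ : 0 < δ) {m : Fin n → ℤ} {x y : E n} (hx : x ∈ Qb δ m) (hy : y ∈ Qb δ m) :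
    dist x y ≤ (n + 1) * δ := by
  rw [EuclideanSpace.dist_eq, Real.sqrt_le_left (by positivity)]
  refine (Finset.sum_le_card_nsmul _ _ (δ ^ 2) fun i _ => ?_).trans ?_
  · have := hx i
    have := hy i
    simp only [mem_Ioc] at *
    rw [Real.dist_eq, sq_abs]
    exact sq_le_sq' (by linarith) (by linarith)
  · simp only [Finset.card_univ, Fintype.card_fin, nsmul_eq_mul]
    have : (0 : ℝ) ≤ n := Nat.cast_nonneg n
    nlinarith [sq_nonneg δ, mul_nonneg (mul_nonneg this this) (sq_nonneg δ),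
      mul_nonneg this (sq_nonneg δ)]

lemma cubes (hδ : 0 < δ) {K : Set (E n)} (hK : Bornology.IsBounded K) :
    ∃ T : Finset (Fin n → ℤ), (∀ x ∈ K, idx δ x ∈ T) ∧
      (∀ m ∈ T, Qb δ m ⊆ cthickening ((n + 1) * δ) K) ∧
      volume (⋃ m ∈ T, Qb δ m) = T.card * ENNReal.ofReal δ ^ n := by
  obtain ⟨R, hR⟩ := isBounded_iff_forall_norm_le.1 hK
  have hf : (idx δ '' K).Finite := (Finite.pi' fun _ : Fin n =>
    finite_Icc (⌈-R / δ⌉ - 1) (⌈R / δ⌉ - 1)).subset (by
      rintro _ ⟨x, hx, rfl⟩ i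
      have := abs_le.1 (((Real.norm_eq_abs _).symm.trans_le (PiLp.norm_apply_le x i)).trans
        (hR x hx))
      constructor <;> simp only [idx] <;> gcongr
      exacts [this.1, this.2])
  refine ⟨hf.toFinset, fun x hx => hf.mem_toFinset.2 ⟨x, hx, rfl⟩, fun m hm y hy => ?_, ?_⟩
  · obtain ⟨x, hx, e⟩ := hf.mem_toFinset.1 hm
    exact mem_cthickening_of_dist_le y x _ _ hx (Qb_dist hδ hy ((mem_Qb hδ).2 e))
  · rw [measure_biUnion_finset (fun a _ b _ ne => disjoint_left.2 fun x p q =>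
      ne (((mem_Qb hδ).1 p).symm.trans ((mem_Qb hδ).1 q))) fun _ _ => Bx_meas _ _]
    simp [Qb, Bx_vol]

lemma compare {p : E n} {ε : ℝ} (hε : 0 < ε) {z r : E n → ℕ} (hz : Lm z) (hr : Lm r)
    (h1 : ∀ᵐ x, z x ≤ ind (x ∈ ball p ε)) (h2 : volume (ball p (3 * ε)) < volume {x | r x ≠ 0}) :
    ∃ w, Lm w ∧ Eqd (Multiplicative (E n)) z w ∧ ∀ᵐ x, w x ≤ r x := by
  classical
  have e0 : volume {x | r x ≠ 0} ≤ volume (interior {x | r x ≠ 0}) := by
    refine measure_mono_ae ?_
    filter_upwards [hr] with x hx a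
    exact mem_interior_iff_mem_nhds.2 (hx.mono fun y hy => show r y ≠ 0 from hy ▸ a)
  obtain ⟨K, k1, k2, k3⟩ := isOpen_interior.exists_lt_isCompact (h2.trans_le e0)
  obtain ⟨η, η0, η1⟩ := k2.exists_cthickening_subset_open isOpen_interior k1
  have hδ : 0 < min η ε / (n + 1) := by positivity
  set δ := min η ε / (n + 1) with hd
  have e1 : (n + 1) * δ = min η ε := by rw [hd]; field_simp
  obtain ⟨T, t1, t2, t3⟩ := cubes hδ (isBounded_ball (x := p) (r := ε))
  obtain ⟨T', s1, s2, s3⟩ := cubes hδ k2.isBounded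
  have c1 : volume (⋃ m ∈ T, Qb δ m) ≤ volume (ball p (3 * ε)) :=
    measure_mono (iUnion₂_subset fun m hm => (t2 m hm).trans (by
      rw [e1]
      refine (cthickening_mono (min_le_right _ _) _).trans ?_
      rw [cthickening_ball hε.le hε]
      exact closedBall_subset_ball (by linarith)))
  have c2 : volume K ≤ volume (⋃ m ∈ T', Qb δ m) :=
    measure_mono fun x hx => mem_biUnion (s1 x hx) ((mem_Qb hδ).2 rfl)
  have c3 : T.card ≤ T'.card := by
    have := (c1.trans_lt k3).trans_le c2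
    rw [t3, s3] at this
    exact_mod_cast (lt_of_mul_lt_mul_right' this).le
  obtain ⟨e⟩ : Nonempty (T ↪ T') := Function.Embedding.nonempty_of_card_le (by simpa using c3)
  set γ : T → Multiplicative (E n) := fun m =>
    ofAdd (WithLp.toLp 2 fun i => ((e m).1 i - m.1 i) * δ) with hγ
  have l : ∀ m : T, Lm fun x => if x ∈ Qb δ m then z x else 0 := fun m =>
    (lm_Bx _ _).comp₂ hz fun a b => if a then b else 0
  refine ⟨_, Lm.sum fun m => (l m).smul (γ m)⁻¹, Eqd.mk' γ _ l ?_
    (Eventually.of_forall fun _ => rfl), ?_⟩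
  · filter_upwards [h1] with x hx
    by_cases c : x ∈ ball p ε
    · exact (Fintype.sum_eq_single (⟨_, t1 x c⟩ : T) fun m ne => if_neg fun d =>
        ne (Subtype.ext ((mem_Qb hδ).1 d).symm)).trans (if_pos ((mem_Qb hδ).2 rfl))
    · rw [ind_neg c] at hx
      simp [Nat.le_zero.1 hx]
  · filter_upwards [eventually_all.2 fun m => res_smul (γ m)⁻¹ h1] with y hy
    have q : ∀ m : T, (γ m)⁻¹ • y ∈ Qb δ m → y ∈ Qb δ (e m) := fun m a i => by
      have : -(((e m).1 i - m.1 i) * δ) + y i ∈ Ioc _ _ := a i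
      simp only [mem_Ioc] at this ⊢
      constructor <;> linarith
    by_cases c : ∃ m : T, (γ m)⁻¹ • y ∈ Qb δ m
    · obtain ⟨m, c⟩ := c
      rw [Fintype.sum_eq_single m fun m' ne => if_neg fun d => ne (e.injective (Subtype.ext
        (((mem_Qb hδ).1 (q _ d)).symm.trans ((mem_Qb hδ).1 (q _ c))))), if_pos c]
      exact ((hy m).trans (ind_le _)).trans (Nat.one_le_iff_ne_zero.2 (interior_subset (s := {x |
        r x ≠ 0}) (η1 (cthickening_mono (e1.le.trans (min_le_left _ _)) _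
          (s2 _ (e m).2 (q m c))))))
    · push Not at c
      simp [c]

lemma lm_ball (p : E n) (r : ℝ) : Lm (· ∈ ball p r) :=
  Lm.of_frontier ((convex_ball p r).addHaar_frontier volume)

variable {G : Type} [Group G] [MulAction G (E n)]

lemma Eqd.tr (hT : ∀ t : Multiplicative (E n), ∃ g : G, ∀ x : E n, g • x = t • x) {a b : E n → ℕ}
    (h : Eqd (Multiplicative (E n)) a b) : Eqd G a b := by
  obtain ⟨m, γ, π, h1, h2, h3⟩ := h
  choose f hf using hT
  refine ⟨m, fun i => f (γ i), π, h1, h2, h3.mono fun x hx => hx ▸ Finset.sum_congr rfl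
    fun i _ => ?_⟩
  rw [show (f (γ i))⁻¹ • x = (γ i)⁻¹ • x by rw [inv_smul_eq_iff, hf, smul_inv_smul]]

variable [ContinuousConstSMul G (E n)] [QI G (E n)]

lemma cancel_list (hT : ∀ t : Multiplicative (E n), ∃ g : G, ∀ x : E n, g • x = t • x)
    {A : Set (E n)} (hA : Lm (· ∈ A)) {ε : ℝ} (hε : 0 < ε)
    (hv : ∀ p : E n, volume (ball p (3 * ε)) + volume (ball p (3 * ε)) < volume A)
    (l : List (E n)) : ∀ a b c : E n → ℕ, Lm a → Lm c → (∀ᵐ x, ind (x ∈ A) ≤ a x) →
      (∀ᵐ x, c x ≤ (l.map fun p => ind (x ∈ ball p ε)).sum) →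
      Eqd G (fun x => a x + c x) (fun x => b x + c x) → Eqd G a b := by
  induction l with
  | nil =>
    intro a b c _ _ _ hc h
    refine h.congr (hc.mono fun x hx => ?_) (hc.mono fun x hx => ?_) <;> simpa using hx
  | cons p l ih =>
    intro a b c ha hc h1 h2 h3
    have l1 : Lm fun x => min (c x) (ind (x ∈ ball p ε)) :=
      hc.comp₂ (lm_ball p ε) fun a q => min a (ind q)
    have l2 : Lm fun x => c x - min (c x) (ind (x ∈ ball p ε)) := hc.comp₂ l1 (· - ·)
    refine ih a b _ ha l2 h1 (h2.mono fun x hx => by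
      rw [List.map_cons, List.sum_cons] at hx
      omega) (Eqd.cancel (ha.comp₂ l2 (· + ·)) l1
        (h3.congr (Eventually.of_forall fun x => by omega)
          (Eventually.of_forall fun x => by omega)) fun z r u u' hz hr _ e1 e2 e3 e4 => ?_)
    refine (compare (p := p) hε hz hr (e1.mono fun x hx => hx.trans (min_le_right _ _)) ?_).imp
      fun w hw => ⟨hw.1, hw.2.1.tr hT, hw.2.2⟩
    have a1 : It u ≤ volume (ball p (3 * ε)) := by
      rw [e3.it]
      refine (It_mono (e4.mono fun x hx => hx.trans (min_le_right _ _))).trans ?_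
      rw [It_ind (lm_ball p ε)]
      exact measure_mono (ball_subset_ball (by linarith))
    have a2 : volume A ≤ volume {x | r x ≠ 0} + It u := by
      rw [← It_ind (hr.comp (· ≠ 0)), ← It_add ((hr.comp (· ≠ 0)).comp ind)]
      refine (It_ind hA).ge.trans (It_mono ?_)
      filter_upwards [h1, e2] with x p q
      have := ind_le (x ∈ A)
      by_cases c : r x = 0
      · omega
      · rw [ind_pos c]
        omega
    by_contra c
    exact absurd (a2.trans (add_le_add (not_lt.1 c) a1)) (not_le.2 (hv p))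

theorem cancel_all (hn : 0 < n)
    (hT : ∀ t : Multiplicative (E n), ∃ g : G, ∀ x : E n, g • x = t • x)
    {A : Set (E n)} (hA : Lm (· ∈ A)) (h0 : volume A ≠ 0) {a b c : E n → ℕ} (ha : Lm a)
    (hc : Nc c) (h1 : ∀ᵐ x, ind (x ∈ A) ≤ a x)
    (h : Eqd G (fun x => a x + c x) (fun x => b x + c x)) : Eqd G a b := by
  haveI : Nonempty (Fin n) := ⟨⟨0, hn⟩⟩
  obtain ⟨U, u1, u2, u3⟩ := Set.exists_isOpen_lt_of_lt (μ := volume) ({0} : Set (E n))
    (volume A / 2) (by rw [measure_singleton]; exact ENNReal.half_pos h0)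
  obtain ⟨r, r0, r1⟩ := Metric.isOpen_iff.1 u2 0 (u1 rfl)
  have hε : 0 < r / 3 := by linarith
  have hv : ∀ p : E n, volume (ball p (3 * (r / 3))) + volume (ball p (3 * (r / 3))) <
      volume A := fun p => by
    rw [Measure.addHaar_ball_center, show 3 * (r / 3) = r by ring, ← ENNReal.add_halves (volume A)]
    exact ENNReal.add_lt_add ((measure_mono r1).trans_lt u3) ((measure_mono r1).trans_lt u3)
  obtain ⟨lc, ⟨N, hN⟩, R, hR⟩ := hc
  obtain ⟨t, ht⟩ := (isCompact_closedBall (0 : E n) R).elim_finite_subcover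
    (fun p : E n => ball p (r / 3)) (fun _ => isOpen_ball)
    fun x _ => mem_iUnion.2 ⟨x, mem_ball_self hε⟩
  have cov : ∀ x : E n, ‖x‖ ≤ R → 1 ≤ (t.toList.map fun p => ind (x ∈ ball p (r / 3))).sum := by
    intro x hx
    obtain ⟨y, hy, hxy⟩ := mem_iUnion₂.1 (ht (mem_closedBall_zero_iff.2 hx))
    exact List.single_le_sum (fun _ _ => Nat.zero_le _) _
      (List.mem_map.2 ⟨y, Finset.mem_toList.2 hy, ind_pos hxy⟩)
  induction N generalizing c with
  | zero => refine h.congr (hN.mono fun x hx => ?_) (hN.mono fun x hx => ?_) <;> simpa using hx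
  | succ N ih =>
    have l1 : Lm fun x => min (c x) 1 := lc.comp fun a => min a 1
    have l2 : Lm fun x => c x - min (c x) 1 := lc.comp₂ l1 (· - ·)
    refine ih (cancel_list hT hA hε hv t.toList _ _ _ (ha.comp₂ l2 (· + ·)) l1
        (h1.mono fun x hx => hx.trans (Nat.le_add_right _ _)) (hR.mono fun x hx => ?_)
        (h.congr (Eventually.of_forall fun x => by omega)
          (Eventually.of_forall fun x => by omega))) l2 (hN.mono fun x hx => by omega)
      (hR.mono fun x hx a => hx (by omega))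
    by_cases h : c x = 0
    · simp [h]
    · exact (min_le_right _ _).trans (cov x (hx h))

end Pool.Agent.H.MP_28492a_gt
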