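import Mathlib

set_option autoImplicit false

namespace Pool.Agent.H.MP_28492a_gt

variable {n : ℕ}

/-- The closed axis-parallel cube with lowest corner `a` and side `s`. -/
def Cube (a : Fin n → ℝ) (s : ℝ) : Set (EuclideanSpace ℝ (Fin n)) :=
  {x | ∀ i, a i ≤ x i ∧ x i ≤ a i + s}

/-- Jordan outer measure zero: finite covers by cubes of arbitrarily small total volume. -/
def JordanNull (S : Set (EuclideanSpace ℝ (Fin n))) : Prop :=
  ∀ ε : ℝ, 0 < ε → ∃ (m : ℕ) (a : Fin m → Fin n → ℝ) (s : Fin m → ℝ),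
    (∀ j, 0 ≤ s j) ∧ S ⊆ ⋃ j, Cube (a j) (s j) ∧ ∑ j, s j ^ n < ε

/-- Geometric bodies: bounded, regular-open, Jordan measurable sets. -/
def Body (A : Set (EuclideanSpace ℝ (Fin n))) : Prop :=
  interior (closure A) = A ∧ Bornology.IsBounded A ∧ JordanNull (frontier A)

/-- The join of a finite family. -/
def Join {m : ℕ} (P : Fin m → Set (EuclideanSpace ℝ (Fin n))) : Set (EuclideanSpace ℝ (Fin n)) :=
  interior (closure (⋃ i, P i))

/-- Equidecomposability as geometric bodies. -/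
def Equi (A B : Set (EuclideanSpace ℝ (Fin n))) : Prop :=
  ∃ (m : ℕ) (P : Fin m → Set (EuclideanSpace ℝ (Fin n)))
    (g : Fin m → EuclideanSpace ℝ (Fin n) ≃ᵢ EuclideanSpace ℝ (Fin n)),
    (∀ i, Body (P i)) ∧ Pairwise (fun i j => Disjoint (P i) (P j)) ∧ A = Join P ∧
    Pairwise (fun i j => Disjoint (g i '' P i) (g j '' P j)) ∧ B = Join fun i => g i '' P i

end Pool.Agent.H.MP_28492a_gt
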