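import Pool.Agent.H.MP_28492a_gt.Moves

set_option autoImplicit false

namespace Pool.Agent.H.MP_28492a_gt

open Finset Relation Filter MeasureTheory
open Pool.Agent.H.MP_bf94fe_gt (Adj Conn)

def Bd {X : Type} [MeasureSpace X] (f : X → ℕ) : Prop := ∃ N : ℕ, ∀ᵐ x : X, f x ≤ N

variable {X G ι : Type} [MetricSpace X] [MeasureSpace X] [CommGroup G] [MulAction G X]
  [ContinuousConstSMul G X] [QI G X] [Fintype ι] {σ : ι → G} {ν : G → ℕ}

variable (σ) in
def Cob (f : X → ℤ) : Prop := ∃ (ψ : X → ι → ℤ) (M : ℤ), Lm ψ ∧ (∀ᵐ x : X, ∀ i, |ψ x i| ≤ M) ∧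
  ∀ᵐ x : X, dv σ ψ x = f x

omit [ContinuousConstSMul G X] [QI G X] in
lemma Cob.congr {f g : X → ℤ} (h : Cob σ f) (e : ∀ᵐ x : X, f x = g x) : Cob σ g := by
  obtain ⟨ψ, M, h1, h2, h3⟩ := h
  refine ⟨ψ, M, h1, h2, ?_⟩
  filter_upwards [h3, e] with x a b using a.trans b

omit [ContinuousConstSMul G X] [QI G X] in
lemma Cob.comb {f g : X → ℤ} (h : Cob σ f) (h' : Cob σ g) {e : ℤ} (he : |e| ≤ 1) :
    Cob σ fun x => f x + e * g x := by
  obtain ⟨ψ, M, h1, h2, h3⟩ := h
  obtain ⟨ψ', M', h1', h2', h3'⟩ := h'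
  refine ⟨fun x i => ψ x i + e * ψ' x i, M + M', h1.comp₂ h1' fun a b i => a i + e * b i, ?_, ?_⟩
  · filter_upwards [h2, h2'] with x a b i
    refine (abs_add_le _ _).trans (add_le_add (a i) (le_trans ?_ (b i)))
    rw [abs_mul]
    exact mul_le_of_le_one_left (abs_nonneg _) he
  · filter_upwards [h3, h3'] with x a b
    rw [← a, ← b]
    simp only [dv, sum_add_distrib, ← mul_sum]
    ring

omit [ContinuousConstSMul G X] [QI G X] in
lemma cob_zero : Cob σ fun _ : X => 0 :=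
  ⟨fun _ => 0, 0, Lm.const _, by simp, by simp [dv]⟩

omit [ContinuousConstSMul G X] [QI G X] in
lemma cob_sum {I : Type} (s : Finset I) {f : I → X → ℤ} (h : ∀ j, Cob σ (f j)) :
    Cob σ fun x => ∑ j ∈ s, f j x := by
  classical
  induction s using Finset.induction_on with
  | empty => simpa using cob_zero
  | insert a s ha ih =>
    exact ((h a).comb ih (e := 1) (by simp)).congr
      (Eventually.of_forall fun x => by simp [sum_insert ha])

lemma cob_shift (hc : ∀ u v, Conn σ Set.univ u v) {π : X → ℕ} (h1 : Lm π) (h2 : Bd π) (γ : G) :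
    Cob σ fun x => π x - π (γ⁻¹ • x) := by
  classical
  obtain ⟨N, hN⟩ := h2
  have one : ∀ (δ : G) (i : ι), Cob σ fun x => (π (δ⁻¹ • x) : ℤ) - π ((σ i * δ)⁻¹ • x) := by
    intro δ i
    refine ⟨fun x => Pi.single i (π (δ⁻¹ • x) : ℤ), N,
      (h1.smul δ⁻¹).comp fun a : ℕ => (Pi.single i (a : ℤ) : ι → ℤ), ?_,
      Eventually.of_forall fun x => by simp [dv, mul_smul, Pi.single_apply]⟩
    filter_upwards [res_smul δ⁻¹ hN] with x a j
    rw [Pi.single_apply]
    split_ifs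
    · simpa using a
    · simp
  induction hc 1 γ with
  | refl => simpa using cob_zero
  | @tail b c _ h ih =>
    obtain ⟨-, -, i, e | e⟩ := h
    · exact (ih.comb (one b i) (e := 1) (by simp)).congr
        (Eventually.of_forall fun x => by rw [e]; ring)
    · exact (ih.comb (one c i) (e := -1) (by simp)).congr
        (Eventually.of_forall fun x => by rw [← e]; ring)

lemma Cob.eqd {a b : X → ℕ} (lb : Lm b) (h : Cob σ fun x => a x - b x) :
    ∃ c : X → ℕ, Lm c ∧ Bd c ∧ Eqd G (fun x => a x + c x) (fun x => b x + c x) := by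
  obtain ⟨φ, M, f1, f2, f3⟩ := h
  have l1 : ∀ i, Lm fun x => (φ x i).toNat := fun i => f1.comp fun a => (a i).toNat
  have l2 : ∀ i, Lm fun x => (-φ x i).toNat := fun i => f1.comp fun a => (-a i).toNat
  have key : Eqd G
      (fun x => ∑ i, (φ x i).toNat + ∑ i, (-φ ((σ i)⁻¹ • x) i).toNat)
      (fun x => ∑ i, (φ ((σ i)⁻¹ • x) i).toNat + ∑ i, (-φ x i).toNat) :=
    (Eqd.mk' σ _ l1 (Eventually.of_forall fun _ => rfl) (Eventually.of_forall fun _ => rfl)).add
    (Eqd.mk' σ _ l2 (Eventually.of_forall fun _ => rfl) (Eventually.of_forall fun _ => rfl)).symm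
  have bd : ∀ (t : ι → ℤ), (∀ i, |t i| ≤ M) → ∑ i, (t i).toNat ≤ Fintype.card ι * M.toNat :=
    fun t ht => Finset.sum_le_card_nsmul _ _ _ fun i _ => by
      have := abs_le.1 (ht i)
      omega
  refine ⟨fun x => ∑ i, (φ ((σ i)⁻¹ • x) i).toNat + ∑ i, (-φ x i).toNat,
    (Lm.sum fun i => (l1 i).smul (σ i)⁻¹).comp₂ (Lm.sum l2) (· + ·),
    ⟨Fintype.card ι * M.toNat + Fintype.card ι * M.toNat, ?_⟩,
    ((Eqd.refl lb).add key).congr ?_ (Eventually.of_forall fun _ => rfl)⟩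
  · filter_upwards [f2, eventually_all.2 fun i => res_smul (σ i)⁻¹ f2] with x a b
    exact Nat.add_le_add (bd _ fun i => b i i) (bd _ fun i => by simpa using a i)
  · filter_upwards [f3] with x a
    have c1 : ∑ i, φ x i = ∑ i, ((φ x i).toNat : ℤ) - ∑ i, ((-φ x i).toNat : ℤ) := by
      rw [← Finset.sum_sub_distrib]
      exact Finset.sum_congr rfl fun i _ => (Int.toNat_sub_toNat_neg _).symm
    have c2 : ∑ i, φ ((σ i)⁻¹ • x) i = ∑ i, ((φ ((σ i)⁻¹ • x) i).toNat : ℤ) -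
        ∑ i, ((-φ ((σ i)⁻¹ • x) i).toNat : ℤ) := by
      rw [← Finset.sum_sub_distrib]
      exact Finset.sum_congr rfl fun i _ => (Int.toNat_sub_toNat_neg _).symm
    unfold dv at a
    rw [c1, c2] at a
    zify
    linarith

variable [BorelSpace X] [CompactSpace X] [IsFiniteMeasure (volume : Measure X)] [Countable G]
  [Nonempty X]

theorem stab_R (hg : Geo σ ν) (hfree : ∀ g : G, g ≠ 1 → ∀ x : X, g • x ≠ x) {k : ℕ} (hk : 0 < k)
    {u v : X → ℕ} (lu : Lm u) (lv : Lm v) (bu : Bd u)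
    (h : Eqd G (fun x => k * u x) (fun x => k * v x)) :
    ∃ c : X → ℕ, Lm c ∧ Bd c ∧ Eqd G (fun x => u x + c x) (fun x => v x + c x) := by
  obtain ⟨n, γ, π, h1, h2, h3⟩ := h
  obtain ⟨N, hN⟩ := bu
  obtain ⟨ψ, M, p1, p2, p3⟩ := cob_sum (σ := σ) univ fun j => cob_shift hg.con (h1 j) ⟨k * N, by
    filter_upwards [h2, hN] with x a b
    exact ((single_le_sum (f := fun i => π i x) (fun _ _ => Nat.zero_le _) (mem_univ j)).trans
      a.le).trans (Nat.mul_le_mul_left _ b)⟩ (γ j)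
  obtain ⟨φ, f1, f2, f3⟩ := round_R hg hfree (k := k) (by exact_mod_cast hk) p1
    (lu.comp₂ lv fun a b => (a : ℤ) - b) p2 (by
      filter_upwards [p3, h2, h3] with x a b c
      rw [a, sum_sub_distrib]
      zify at b c
      rw [b, c, mul_sub])
  exact Cob.eqd (σ := σ) lv ⟨φ, _, f1, f2, f3⟩

theorem stab_D (hg : Geo σ ν) (hfree : ∀ g : G, g ≠ 1 → ∀ x : X, g • x ≠ x) {k : ℕ} (hk : 0 < k)
    {p : X → ℕ} (lp : Lm p) (bp : Bd p) : ∃ m h : X → ℕ, Lm m ∧ Bd m ∧ Lm h ∧ Bd h ∧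
      Eqd G (fun x => p x + k * m x) (fun x => k * h x) := by
  obtain ⟨φ, f1, f2, f3⟩ := round_D hg hfree (k := k) (by exact_mod_cast hk)
    (lp.comp fun a => (a : ℤ))
  obtain ⟨N, hN⟩ := bp
  have ld : Lm (dv σ φ) := (Lm.sum fun i => f1.comp fun a => a i).comp₂
    (Lm.sum fun i => (f1.smul (σ i)⁻¹).comp fun a => a i) (· - ·)
  set h : X → ℤ := fun x => (p x - dv σ φ x) / k with hh
  have lh : Lm h := lp.comp₂ ld fun a b => ((a : ℤ) - b) / k
  have bh : ∀ᵐ x : X, |h x| ≤ N + (Fintype.card ι * k + Fintype.card ι * k) := by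
    filter_upwards [hN, f2, eventually_all.2 fun i => res_smul (σ i)⁻¹ f2] with x a b c
    have bd : ∀ (t : ι → ℤ), (∀ i, |t i| ≤ k) → |∑ i, t i| ≤ Fintype.card ι * k := fun t ht =>
      (abs_sum_le_sum_abs _ _).trans (by simpa using sum_le_card_nsmul univ _ _ fun i _ => ht i)
    refine (Int.abs_ediv_le_abs _ _).trans ((abs_sub _ _).trans (add_le_add (by simpa using a)
      ((abs_sub _ _).trans (add_le_add (bd _ b) (bd _ fun i => c i i)))))
  obtain ⟨c, c1, ⟨M, c2⟩, c3⟩ := Cob.eqd (σ := σ) (a := fun x => p x + k * (-h x).toNat)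
    (b := fun x => k * (h x).toNat) (lh.comp fun a => k * a.toNat) ⟨φ, k, f1, f2, by
      filter_upwards [f3] with x a
      have := Int.mul_ediv_cancel' a
      have e := Int.toNat_sub_toNat_neg (h x)
      push_cast
      linear_combination this + k * e⟩
  refine ⟨fun x => (-h x).toNat + c x, fun x => (h x).toNat + c x,
    lh.comp₂ c1 fun a b => (-a).toNat + b,
    ⟨N + (Fintype.card ι * k + Fintype.card ι * k) + M, ?_⟩, lh.comp₂ c1 fun a b => a.toNat + b,
    ⟨N + (Fintype.card ι * k + Fintype.card ι * k) + M, ?_⟩,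
    (c3.add (Eqd.refl (c1.comp fun a => (k - 1) * a))).congr ?_ ?_⟩
  · filter_upwards [bh, c2] with x a b
    have := abs_le.1 a
    zify at b ⊢
    omega
  · filter_upwards [bh, c2] with x a b
    have := abs_le.1 a
    zify at b ⊢
    omega
  · obtain ⟨k, rfl⟩ := Nat.exists_eq_succ_of_ne_zero hk.ne'
    exact Eventually.of_forall fun x => by simp only [Nat.succ_sub_one, Nat.succ_eq_add_one]; ring
  · obtain ⟨k, rfl⟩ := Nat.exists_eq_succ_of_ne_zero hk.ne'
    exact Eventually.of_forall fun x => by simp only [Nat.succ_sub_one, Nat.succ_eq_add_one]; ring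

end Pool.Agent.H.MP_28492a_gt
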