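import Pool.Agent.H.MP_bf94fe_gt.Cancel

set_option autoImplicit false

namespace Pool.Agent.H.MP_28492a_gt

open Filter Topology Finset MeasureTheory
open Pool.Agent.H.MP_bf94fe_gt (table ind ind_le ind_pos ind_neg)

variable {X : Type} [TopologicalSpace X] [MeasureSpace X]

/-- Almost everywhere locally constant functions. -/
def Lm {α : Type} (f : X → α) : Prop := ∀ᵐ x : X, ∀ᶠ y in 𝓝 x, f y = f x

lemma Lm.comp {α β : Type} {f : X → α} (hf : Lm f) (h : α → β) : Lm (fun x => h (f x)) := by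
  filter_upwards [hf] with x hx
  filter_upwards [hx] with y hy
  rw [hy]

lemma Lm.comp₂ {α β γ : Type} {f : X → α} {g : X → β} (hf : Lm f) (hg : Lm g) (h : α → β → γ) :
    Lm (fun x => h (f x) (g x)) := by
  filter_upwards [hf, hg] with x hx hx'
  filter_upwards [hx, hx'] with y hy hy'
  rw [hy, hy']

lemma Lm.pi {ι α : Type} [Finite ι] {f : ι → X → α} (h : ∀ i, Lm (f i)) :
    Lm (fun x i => f i x) := by
  filter_upwards [eventually_all.2 h] with x hx
  filter_upwards [eventually_all.2 hx] with y hy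
  exact funext hy

lemma Lm.const {α : Type} (a : α) : Lm (fun _ : X => a) :=
  Eventually.of_forall fun _ => Eventually.of_forall fun _ => rfl

lemma Lm.sum {ι α : Type} [Fintype ι] [AddCommMonoid α] {f : ι → X → α} (h : ∀ i, Lm (f i)) :
    Lm (fun x => ∑ i, f i x) := (Lm.pi h).comp fun v => ∑ i, v i

lemma Lm.of_frontier {U : Set X} (hU : volume (frontier U) = 0) : Lm (fun x => x ∈ U) := by
  filter_upwards [compl_mem_ae_iff.2 hU] with x hx
  by_cases h : x ∈ closure U
  · have h1 : x ∈ interior U := by_contra fun c => hx ⟨h, c⟩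
    filter_upwards [isOpen_interior.mem_nhds h1] with y hy
    exact propext ⟨fun _ => interior_subset h1, fun _ => interior_subset hy⟩
  · filter_upwards [isClosed_closure.isOpen_compl.mem_nhds h] with y hy
    exact propext ⟨fun h' => absurd (subset_closure h') hy, fun h' => absurd (subset_closure h') h⟩

lemma Lm.aemeasurable [OpensMeasurableSpace X] {β : Type} [MeasurableSpace β] [TopologicalSpace β]
    [BorelSpace β] {f : X → β} (h : Lm f) : AEMeasurable f := by
  have hU : IsOpen {x | ∀ᶠ y in 𝓝 x, f y = f x} := by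
    refine isOpen_iff_mem_nhds.2 fun x hx => ?_
    filter_upwards [eventually_eventually_nhds.2 hx, hx] with y h1 h2
    filter_upwards [h1] with z h3
    rw [h3, h2]
  rw [← Measure.restrict_eq_self_of_ae_mem (s := {x | ∀ᶠ y in 𝓝 x, f y = f x}) h]
  exact ContinuousOn.aemeasurable (fun x hx => (continuousAt_const.congr
    (EventuallyEq.symm hx)).continuousWithinAt) hU.measurableSet

lemma Lm.null [OpensMeasurableSpace X] {p : X → Prop} (h : Lm p) :
    NullMeasurableSet {x | p x} := by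
  refine isOpen_interior.measurableSet.nullMeasurableSet.congr (s := interior {x | p x}) ?_
  filter_upwards [h] with x hx
  exact propext ⟨fun a => interior_subset a, fun a => mem_interior_iff_mem_nhds.2
    (hx.mono fun y hy => show p y from hy ▸ a)⟩

class QI (G X : Type) [SMul G X] [MeasureSpace X] : Prop where
  mp : ∀ g : G, MeasurePreserving (fun x : X => g • x)

variable {G : Type} [Group G] [MulAction G X] [ContinuousConstSMul G X] [QI G X]

omit [TopologicalSpace X] [ContinuousConstSMul G X] in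
lemma res_smul (g : G) {p : X → Prop} (h : ∀ᵐ x : X, p x) : ∀ᵐ x : X, p (g • x) :=
  (QI.mp g).quasiMeasurePreserving.tendsto_ae.eventually h

lemma Lm.smul {α : Type} {f : X → α} (hf : Lm f) (g : G) : Lm (fun x => f (g • x)) := by
  filter_upwards [res_smul g hf] with x hx
  exact (continuous_const_smul g).continuousAt.eventually hx

variable (G) in
/-- Generic equidecomposability of multiplicity functions. -/
def Eqd (a b : X → ℕ) : Prop :=
  ∃ (n : ℕ) (γ : Fin n → G) (π : Fin n → X → ℕ), (∀ i, Lm (π i)) ∧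
    (∀ᵐ x : X, ∑ i, π i x = a x) ∧ ∀ᵐ x : X, ∑ i, π i ((γ i)⁻¹ • x) = b x

omit [ContinuousConstSMul G X] [QI G X] in
lemma Eqd.mk' {I : Type} [Fintype I] {a b : X → ℕ} (γ : I → G) (π : I → X → ℕ)
    (h1 : ∀ i, Lm (π i)) (h2 : ∀ᵐ x : X, ∑ i, π i x = a x)
    (h3 : ∀ᵐ x : X, ∑ i, π i ((γ i)⁻¹ • x) = b x) : Eqd G a b := by
  set e := (Fintype.equivFin I).symm
  refine ⟨_, fun k => γ (e k), fun k => π (e k), fun k => h1 _, ?_, ?_⟩
  · filter_upwards [h2] with x hx
    rw [← hx]
    exact e.sum_comp fun i => π i x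
  · filter_upwards [h3] with x hx
    rw [← hx]
    exact e.sum_comp fun i => π i ((γ i)⁻¹ • x)

omit [ContinuousConstSMul G X] [QI G X] in
lemma Eqd.congr {a b a' b' : X → ℕ} (h : Eqd G a b) (ha : ∀ᵐ x : X, a x = a' x)
    (hb : ∀ᵐ x : X, b x = b' x) : Eqd G a' b' := by
  obtain ⟨n, γ, π, h1, h2, h3⟩ := h
  refine ⟨n, γ, π, h1, ?_, ?_⟩
  · filter_upwards [h2, ha] with x e e'
    rw [e, e']
  · filter_upwards [h3, hb] with x e e'
    rw [e, e']

omit [ContinuousConstSMul G X] [QI G X] in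
lemma Eqd.refl {a : X → ℕ} (ha : Lm a) : Eqd G a a :=
  ⟨1, fun _ => 1, fun _ => a, fun _ => ha, by simp, by simp⟩

lemma Eqd.symm {a b : X → ℕ} (h : Eqd G a b) : Eqd G b a := by
  obtain ⟨n, γ, π, h1, h2, h3⟩ := h
  refine ⟨n, fun i => (γ i)⁻¹, fun i x => π i ((γ i)⁻¹ • x), fun i => (h1 i).smul _, h3, ?_⟩
  simpa using h2

omit [ContinuousConstSMul G X] [QI G X] in
lemma Eqd.add {a b a' b' : X → ℕ} (h : Eqd G a b) (h' : Eqd G a' b') :
    Eqd G (fun x => a x + a' x) (fun x => b x + b' x) := by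
  obtain ⟨n, γ, π, h1, h2, h3⟩ := h
  obtain ⟨n', γ', π', h1', h2', h3'⟩ := h'
  refine Eqd.mk' (I := Fin n ⊕ Fin n') (Sum.elim γ γ') (Sum.elim π π') ?_ ?_ ?_
  · rintro (i | i)
    exacts [h1 i, h1' i]
  · filter_upwards [h2, h2'] with x e e'
    simp [Fintype.sum_sum_type, e, e']
  · filter_upwards [h3, h3'] with x e e'
    simp [Fintype.sum_sum_type, e, e']

lemma Eqd.trans {a b c : X → ℕ} (h : Eqd G a b) (h' : Eqd G b c) : Eqd G a c := by
  obtain ⟨n, γ, π, h1, h2, h3⟩ := h
  obtain ⟨n', γ', π', h1', h2', h3'⟩ := h'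
  choose T hT using table (I := Fin n) (J := Fin n')
  set S : X → Fin n → Fin n' → ℕ :=
    fun y => T (fun i => π i ((γ i)⁻¹ • y)) (fun j => π' j y) with hS
  have hSG : Lm S := (Lm.pi fun i => (h1 i).smul (γ i)⁻¹).comp₂ (Lm.pi h1') T
  have hSr : ∀ᵐ y : X, (∀ i, ∑ j, S y i j = π i ((γ i)⁻¹ • y)) ∧
      ∀ j, ∑ i, S y i j = π' j y := by
    filter_upwards [h3, h2'] with y e e'
    exact hT _ _ (by rw [e, e'])
  refine Eqd.mk' (I := Fin n × Fin n') (fun p => γ' p.2 * γ p.1)
    (fun p x => S (γ p.1 • x) p.1 p.2) (fun p => (hSG.smul (γ p.1)).comp fun v => v p.1 p.2) ?_ ?_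
  · filter_upwards [h2, eventually_all.2 fun i => res_smul (γ i) hSr] with x e e'
    rw [Fintype.sum_prod_type, ← e]
    refine Finset.sum_congr rfl fun i _ => ?_
    simpa using (e' i).1 i
  · filter_upwards [h3', eventually_all.2 fun j => res_smul (γ' j)⁻¹ hSr] with x e e'
    rw [Fintype.sum_prod_type_right, ← e]
    refine Finset.sum_congr rfl fun j _ => ?_
    simpa [mul_smul] using (e' j).2 j

lemma Eqd.split {a a' b : X → ℕ} (h : Eqd G (fun x => a x + a' x) b) (ha : Lm a) (ha' : Lm a') :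
    ∃ c c' : X → ℕ, Lm c ∧ Lm c' ∧ (∀ᵐ x : X, c x + c' x = b x) ∧
      Eqd G a c ∧ Eqd G a' c' := by
  obtain ⟨n, γ, π, h1, h2, h3⟩ := h
  choose T hT using table (I := Fin n) (J := Bool)
  set S : X → Fin n → Bool → ℕ :=
    fun y => T (fun i => π i y) (fun j => cond j (a y) (a' y)) with hS
  have hSG : Lm S := (Lm.pi h1).comp₂ (ha.comp₂ ha' fun u v j => cond j u v) T
  have hSr : ∀ᵐ y : X, (∀ i, ∑ j, S y i j = π i y) ∧
      ∀ j, ∑ i, S y i j = cond j (a y) (a' y) := by
    filter_upwards [h2] with y e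
    exact hT _ _ (by simp [e])
  have hG : ∀ j i, Lm fun x => S x i j := fun j i => hSG.comp fun v => v i j
  refine ⟨fun x => ∑ i, S ((γ i)⁻¹ • x) i true, fun x => ∑ i, S ((γ i)⁻¹ • x) i false,
    Lm.sum fun i => (hG true i).smul _, Lm.sum fun i => (hG false i).smul _, ?_,
    ⟨n, γ, fun i x => S x i true, hG true, ?_, Eventually.of_forall fun _ => rfl⟩,
    ⟨n, γ, fun i x => S x i false, hG false, ?_, Eventually.of_forall fun _ => rfl⟩⟩
  · filter_upwards [h3, eventually_all.2 fun i => res_smul (γ i)⁻¹ hSr] with x e e'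
    rw [← e, ← Finset.sum_add_distrib]
    refine Finset.sum_congr rfl fun i _ => ?_
    simpa using (e' i).1 i
  · filter_upwards [hSr] with x e using e.2 true
  · filter_upwards [hSr] with x e using e.2 false

/-- The swap trick: a summand can be cancelled once a comparison is available. -/
lemma Eqd.cancel {a b c : X → ℕ} (ha : Lm a) (hc : Lm c)
    (h : Eqd G (fun x => a x + c x) (fun x => b x + c x))
    (cmp : ∀ z r u u' : X → ℕ, Lm z → Lm r → Lm u → (∀ᵐ x : X, z x ≤ c x) →
      (∀ᵐ x : X, r x + u x = a x) → Eqd G u u' → (∀ᵐ x : X, u' x ≤ c x) →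
      ∃ w : X → ℕ, Lm w ∧ Eqd G z w ∧ ∀ᵐ x : X, w x ≤ r x) : Eqd G a b := by
  obtain ⟨b1, b2, g1, g2, e, r1, r2⟩ := h.split ha hc
  have q22 : Lm fun x => min (b2 x) (c x) := g2.comp₂ hc min
  have q12 : Lm fun x => c x - min (b2 x) (c x) := hc.comp₂ q22 (· - ·)
  have q21 : Lm fun x => b2 x - min (b2 x) (c x) := g2.comp₂ q22 (· - ·)
  have q11 : Lm fun x => b1 x - (c x - min (b2 x) (c x)) := g1.comp₂ q12 (· - ·)
  obtain ⟨z11, z12, p11, p12, e1, s11, s12⟩ := (r1.symm.congr (a' := fun x =>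
    (b1 x - (c x - min (b2 x) (c x))) + (c x - min (b2 x) (c x))) (b' := a)
    (by filter_upwards [e] with x hx; omega) (Eventually.of_forall fun _ => rfl)).split q11 q12
  obtain ⟨z21, z22, p21, p22, e2, s21, s22⟩ := (r2.symm.congr (a' := fun x =>
    (b2 x - min (b2 x) (c x)) + min (b2 x) (c x)) (b' := c)
    (Eventually.of_forall fun x => by omega) (Eventually.of_forall fun _ => rfl)).split q21 q22
  obtain ⟨w, pw, sw, ew⟩ := cmp z22 z11 z12 _ p22 p11 p12
    (by filter_upwards [e2] with x hx; omega) e1 s12.symm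
    (Eventually.of_forall fun x => by omega)
  have pr : Lm fun x => z11 x - w x := p11.comp₂ pw (· - ·)
  have t1 := ((Eqd.refl (G := G) pr).add (sw.symm.trans s22.symm)).add s12.symm
  have t2 := ((Eqd.refl (G := G) pr).add sw).add (Eqd.refl (G := G) p21)
  have t3 := s11.symm.add s21.symm
  refine ((t1.congr (a' := a) (b' := fun x => z11 x - w x + z22 x + z21 x) ?_ ?_).trans
    (t2.congr (Eventually.of_forall fun _ => rfl) ?_)).trans
    (t3.congr (Eventually.of_forall fun _ => rfl) ?_)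
  · filter_upwards [e1, ew] with x h1 h2
    omega
  · filter_upwards [e2] with x h1
    omega
  · filter_upwards [ew] with x h1
    omega
  · filter_upwards [e] with x h1
    omega

end Pool.Agent.H.MP_28492a_gt
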