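import Pool.Agent.H.MP_bf94fe_gt.Graph

set_option autoImplicit false

namespace Pool.Agent.H.MP_28492a_gt

open Relation Pool.Agent.H.MP_bf94fe_gt

variable {G ι : Type} [Group G] {σ : ι → G} {ν : G → ℕ}

variable (σ ν) in
structure Geo : Prop where
  mul : ∀ g h, ν (g * h) ≤ ν g + ν h
  inv : ∀ g, ν g⁻¹ = ν g
  one : ν 1 = 0
  gen : ∀ i, ν (σ i) ≤ 1
  fin : ∀ n, {g | ν g ≤ n}.Finite
  shell : ∀ m N u v, m < ν u → ν u ≤ N → m < ν v → ν v ≤ N →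
    Conn σ {g | m < ν g ∧ ν g ≤ N} u v
  unb : ∀ n, ∃ g, n < ν g
  con : ∀ u v, Conn σ Set.univ u v
  cov : ∃ C : ℕ, ∀ n, 0 < n → ∃ T : Finset G, T.card ≤ C ∧
    ∀ g, ν g ≤ 4 * n → ∃ t ∈ T, ν (g * t⁻¹) ≤ n

lemma Geo.tri (h : Geo σ ν) (a b c : G) : ν (a * c⁻¹) ≤ ν (a * b⁻¹) + ν (b * c⁻¹) := by
  simpa using h.mul (a * b⁻¹) (b * c⁻¹)

lemma Geo.sym (h : Geo σ ν) (a b : G) : ν (a * b⁻¹) = ν (b * a⁻¹) := by
  rw [← h.inv]
  simp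

lemma Geo.adj (h : Geo σ ν) {a b : G} (e : Adj σ a b) : ν (a * b⁻¹) ≤ 1 ∧ ν (b * a⁻¹) ≤ 1 := by
  rw [h.sym b a, and_self]
  obtain ⟨i, rfl | rfl⟩ := e
  · rw [h.sym]
    simpa using h.gen i
  · simpa using h.gen i

lemma Geo.le (h : Geo σ ν) (a b : G) : ν a ≤ ν (a * b⁻¹) + ν b := by
  simpa using h.mul (a * b⁻¹) b

lemma Geo.self (h : Geo σ ν) (a : G) : ν (a * a⁻¹) = 0 := by simp [h.one]

lemma conn_mem {P : Set G} {a b : G} (h : Conn σ P a b) (ha : a ∈ P) : b ∈ P := by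
  induction h with
  | refl => exact ha
  | tail _ h2 _ => exact h2.2.1

lemma reroute {Q T Bd : Set G} (H : ∀ u v, u ∈ Q → v ∈ Q → u ∉ Bd → v ∉ Bd →
      (Adj σ u v ∨ ∃ a b, a ∈ Bd ∧ Conn σ Bd a b ∧ Adj σ u a ∧ Adj σ b v) → Conn σ T u v)
    {u v : G} (h : Conn σ Q u v) (hu : u ∉ Bd) (hv : v ∉ Bd) : Conn σ T u v := by
  have key : (v ∉ Bd → Conn σ T u v) ∧ (v ∈ Bd → ∃ w ∈ Q, w ∉ Bd ∧ Conn σ T u w ∧
      ∃ a ∈ Bd, Adj σ w a ∧ Conn σ Bd a v) := by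
    clear hv
    induction h with
    | refl => exact ⟨fun _ => ReflTransGen.refl, fun a => absurd a hu⟩
    | @tail b c _ h2 ih =>
      by_cases hb : b ∈ Bd
      · obtain ⟨w, w1, w2, w3, a, a1, a2, a3⟩ := ih.2 hb
        exact ⟨fun hc => w3.trans (H w c w1 h2.2.1 w2 hc (Or.inr ⟨a, b, a1, a3, a2, h2.2.2⟩)),
          fun hc => ⟨w, w1, w2, w3, a, a1, a2, a3.trans (Conn.step hb hc h2.2.2)⟩⟩
      · exact ⟨fun hc => (ih.1 hb).trans (H b c h2.1 h2.2.1 hb hc (Or.inl h2.2.2)),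
          fun hc => ⟨b, h2.1, hb, ih.1 hb, c, hc, h2.2.2, ReflTransGen.refl⟩⟩
  exact key.1 hv

variable (σ ν) in
structure UU (W : Set G) (s : ℕ) : Prop where
  u1 : ∀ a b, a ∈ W → Conn σ W a b → ν (b * a⁻¹) ≤ s
  u2 : ∀ u v a b, u ∉ W → v ∉ W → a ∈ W → Conn σ W a b → Adj σ u a → Adj σ b v →
    Conn σ ({g | ν (g * u⁻¹) ≤ s} \ W) u v

lemma uu_empty : UU σ ν ∅ 0 := ⟨by simp, by simp⟩

lemma UU.route (hg : Geo σ ν) {W Q : Set G} {s : ℕ} (h : UU σ ν W s) {u v : G}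
    (c : Conn σ Q u v) (hu : u ∉ W) (hv : v ∉ W) :
    Conn σ ({g | ∃ q ∈ Q, ν (g * q⁻¹) ≤ s} \ W) u v := by
  refine reroute (fun a b a1 b1 a2 b2 e => ?_) c hu hv
  rcases e with e | ⟨x, y, e1, e2, e3, e4⟩
  · exact Conn.step ⟨⟨a, a1, by rw [hg.self]; omega⟩, a2⟩ ⟨⟨b, b1, by rw [hg.self]; omega⟩, b2⟩ e
  · exact (h.u2 a b x y a2 b2 e1 e2 e3 e4).mono fun g hg => ⟨⟨a, a1, hg.1⟩, hg.2⟩

lemma UU.grow (hg : Geo σ ν) {W : Set G} {s : ℕ} (h : UU σ ν W s) (n : ℕ) :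
    ∃ L : Set G, (∀ g, ν g ≤ n → g ∈ L) ∧ (∀ g ∈ L, ν g ≤ n + 2 * s + 1) ∧
      (∀ u ∈ L, ∀ v ∈ W, Adj σ u v → v ∈ L) ∧
      ∀ N u v, n + s + 1 ≤ N → ν u ≤ N → ν v ≤ N → u ∉ W ∪ L → v ∉ W ∪ L →
        Conn σ ({g | ν g ≤ N + s} \ (W ∪ L)) u v := by
  set Pc := {g | g ∉ W ∧ n < ν g} with hP
  set q : G → Prop := fun u => ∃ z, n + s < ν z ∧ z ∉ W ∧ Conn σ Pc u z with hq
  set L0 := {g | ν g ≤ n ∨ (g ∉ W ∧ ¬ q g)} with hL0
  have b0 : ∀ g ∈ L0, ν g ≤ n + s := by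
    rintro g (a | a)
    · omega
    · by_contra c
      exact a.2 ⟨g, by omega, a.1, ReflTransGen.refl⟩
  set L := L0 ∪ {b | ∃ a ∈ W, Conn σ W a b ∧ (a ∈ L0 ∨ ∃ u ∈ L0, Adj σ u a)} with hL
  have out : ∀ t ∈ Pc, q t → t ∉ W ∪ L := by
    rintro t ht hqt (a | (a | a) | ⟨a, a1, a2, -⟩)
    · exact ht.1 a
    · exact absurd ht.2 (by omega)
    · exact a.2 hqt
    · exact ht.1 (conn_mem a2 a1)
  have back : ∀ {a b}, a ∈ Pc → b ∈ Pc → Adj σ a b → q b → q a :=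
    fun ha hb e ⟨z, z1, z2, z3⟩ => ⟨z, z1, z2, (Conn.step ha hb e).trans z3⟩
  have key : ∀ (T : Set G) a b, T ⊆ Pc → q a → Conn σ T a b →
      q b ∧ Conn σ (T \ (W ∪ L)) a b := by
    intro T a b hT ha c
    induction c with
    | refl => exact ⟨ha, ReflTransGen.refl⟩
    | @tail b c _ h2 ih =>
      have hc := back (hT h2.2.1) (hT h2.1) h2.2.2.symm ih.1
      exact ⟨hc, ih.2.trans (Conn.step ⟨h2.1, out _ (hT h2.1) ih.1⟩
        ⟨h2.2.1, out _ (hT h2.2.1) hc⟩ h2.2.2)⟩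
  refine ⟨L, fun g a => Or.inl (Or.inl a), ?_, ?_, fun N u v hN hu hv u' v' => ?_⟩
  · rintro g (a | ⟨a, a1, a2, a3 | ⟨u, a3, a4⟩⟩)
    · have := b0 g a
      omega
    · have := b0 a a3
      have := h.u1 a g a1 a2
      have := hg.le g a
      omega
    · have := b0 u a3
      have := h.u1 a g a1 a2
      have := hg.le g a
      have := hg.le a u
      have := hg.adj a4
      omega
  · rintro u (a | ⟨a, a1, a2, a3⟩) v hv e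
    · exact Or.inr ⟨v, hv, ReflTransGen.refl, Or.inr ⟨u, a, e⟩⟩
    · exact Or.inr ⟨a, a1, a2.trans (Conn.step (conn_mem a2 a1) hv e), a3⟩
  have esc : ∀ u, ν u ≤ N → u ∉ W ∪ L → ∃ z, n + s < ν z ∧ ν z ≤ N ∧ z ∉ W ∧
      Conn σ ({g | ν g ≤ N + s} \ (W ∪ L)) u z := by
    intro u hu u'
    have qu : q u := by
      by_contra c
      exact u' (Or.inr (Or.inl (Or.inr ⟨fun a => u' (Or.inl a), c⟩)))
    obtain ⟨z, z1, z2, z3⟩ := qu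
    have : ∀ a, Conn σ Pc a z → ν a ≤ N → a ∉ W → ∃ z, n + s < ν z ∧ ν z ≤ N ∧ z ∉ W ∧
        Conn σ ({g | ν g ≤ N + s} \ (W ∪ L)) a z := by
      intro a c
      induction c using ReflTransGen.head_induction_on with
      | refl => exact fun a b => ⟨z, z1, a, b, ReflTransGen.refl⟩
      | @head a b e c ih =>
        intro ha hw
        by_cases p : n + s < ν a
        · exact ⟨a, p, ha, hw, ReflTransGen.refl⟩
        have := hg.le b a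
        have := hg.adj e.2.2
        obtain ⟨y, y1, y2, y3, y4⟩ := ih (by omega) e.2.1.1
        have qb : q b := ⟨z, z1, z2, c⟩
        refine ⟨y, y1, y2, y3, Conn.trans (Conn.step ?_ ?_ e.2.2) y4⟩
        · exact ⟨show ν a ≤ N + s by omega, out _ e.1 (back e.1 e.2.1 e.2.2 qb)⟩
        · exact ⟨show ν b ≤ N + s by omega, out _ e.2.1 qb⟩
    exact this u z3 hu fun a => u' (Or.inl a)
  obtain ⟨y, y1, y2, y3, y4⟩ := esc u hu u'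
  obtain ⟨z, z1, z2, z3, z4⟩ := esc v hv v'
  have := (key _ y z (by
      rintro g ⟨⟨p, p1, p2⟩, g2⟩
      have := hg.le p g
      rw [hg.sym] at this
      exact ⟨g2, by have := p1.1; omega⟩) ⟨y, y1, y3, ReflTransGen.refl⟩
    (h.route hg (hg.shell _ _ y z y1 y2 z1 z2) y3 z3)).2
  refine (y4.trans (this.mono ?_)).trans z4.symm
  rintro g ⟨⟨⟨p, p1, p2⟩, -⟩, g2⟩
  have := hg.le g p
  exact ⟨show ν g ≤ N + s by have := p1.2; omega, g2⟩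

lemma UU.step (hg : Geo σ ν) {W Y : Set G} {s r ρ : ℕ} (h : UU σ ν W s) {K : G → Set G}
    (hr : r + 1 ≤ ρ) (k1 : ∀ y ∈ Y, ∀ g ∈ K y, ν (g * y⁻¹) ≤ r)
    (sep : ∀ y ∈ Y, ∀ y' ∈ Y, ν (y' * y⁻¹) ≤ 2 * ρ → y' = y)
    (sat : ∀ y ∈ Y, ∀ u ∈ K y, ∀ v ∈ W, Adj σ u v → v ∈ K y)
    (det : ∀ y ∈ Y, ∀ u v, u ∉ K y → v ∉ K y → (∃ a ∈ K y, Adj σ a u) → (∃ a ∈ K y, Adj σ a v) →
      Conn σ ({g | ν (g * y⁻¹) ≤ ρ} \ (W ∪ K y)) u v) :
    UU σ ν (W ∪ {g | ∃ y ∈ Y, g ∈ K y}) (s + 2 * ρ) := by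
  set Bd := {g | ∃ y ∈ Y, g ∈ K y} with hB
  have uq : ∀ y ∈ Y, ∀ g, ν (g * y⁻¹) ≤ ρ → g ∈ Bd → g ∈ K y := by
    rintro y hy g a ⟨y', hy', b⟩
    have := k1 y' hy' g b
    have := hg.tri y' g y
    rw [hg.sym y' g] at this
    rwa [← sep y hy y' hy' (by omega)]
  have comp : ∀ a b, a ∈ W ∪ Bd → Conn σ (W ∪ Bd) a b → (∃ y ∈ Y, a ∈ K y ∧ b ∈ K y) ∨
      (a ∈ W ∧ b ∉ Bd ∧ Conn σ W a b) := by
    intro a b ha c
    induction c with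
    | refl =>
      by_cases p : a ∈ Bd
      · obtain ⟨y, hy, p⟩ := p
        exact Or.inl ⟨y, hy, p, p⟩
      · exact Or.inr ⟨ha.resolve_right p, p, ReflTransGen.refl⟩
    | @tail b c _ h2 ih =>
      rcases ih with ⟨y, hy, p1, p2⟩ | ⟨p1, p2, p3⟩
      · refine Or.inl ⟨y, hy, p1, h2.2.1.elim (fun w => sat y hy b p2 c w h2.2.2) (uq y hy c ?_)⟩
        have := k1 y hy b p2
        have := hg.tri c b y
        have := hg.adj h2.2.2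
        omega
      · have hb := conn_mem p3 p1
        have : c ∉ Bd := fun ⟨y, hy, p⟩ => p2 ⟨y, hy, sat y hy c p b hb h2.2.2.symm⟩
        exact Or.inr ⟨p1, this, p3.trans (Conn.step hb (h2.2.1.resolve_right this) h2.2.2)⟩
  have dt : ∀ y ∈ Y, ∀ u v a b w (m : ℕ), u ∉ Bd → v ∉ Bd → a ∈ K y → b ∈ K y → Adj σ u a →
      Adj σ b v → ν (u * w⁻¹) ≤ m →
      Conn σ ({g | ν (g * w⁻¹) ≤ m + 2 * ρ} \ (W ∪ Bd)) u v := by
    intro y hy u v a b w m hu hv ha hb e1 e2 hm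
    refine (det y hy u v (fun p => hu ⟨y, hy, p⟩) (fun p => hv ⟨y, hy, p⟩) ⟨a, ha, e1.symm⟩
      ⟨b, hb, e2⟩).mono fun g p => ⟨?_, fun c => c.elim (fun c => p.2 (Or.inl c))
        fun c => p.2 (Or.inr (uq y hy g p.1 c))⟩
    have := k1 y hy a ha
    have := hg.tri g y w
    have := hg.tri y a w
    have := hg.tri a u w
    have := hg.adj e1
    have := hg.sym y a
    have : ν (g * y⁻¹) ≤ ρ := p.1
    show ν (g * w⁻¹) ≤ m + 2 * ρ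
    omega
  refine ⟨fun a b ha c => ?_, fun u v a b hu hv ha c e1 e2 => ?_⟩
  · rcases comp a b ha c with ⟨y, hy, p1, p2⟩ | ⟨p1, -, p3⟩
    · have := k1 y hy a p1
      have := k1 y hy b p2
      have := hg.tri b y a
      have := hg.sym y a
      omega
    · have := h.u1 a b p1 p3
      omega
  have hu' : u ∉ Bd := fun p => hu (Or.inr p)
  have hv' : v ∉ Bd := fun p => hv (Or.inr p)
  rcases comp a b ha c with ⟨y, hy, p1, p2⟩ | ⟨p1, -, p3⟩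
  · exact dt y hy u v a b u s hu' hv' p1 p2 e1 e2 (by rw [hg.self]; omega)
  refine reroute (fun x z x1 z1 x2 z2 e => ?_)
    (h.u2 u v a b (fun p => hu (Or.inl p)) (fun p => hv (Or.inl p)) p1 p3 e1 e2) hu' hv'
  rcases e with e | ⟨a', b', q1, q2, q3, q4⟩
  · exact Conn.step ⟨Nat.le_add_right_of_le x1.1, fun c => c.elim x1.2 x2⟩
      ⟨Nat.le_add_right_of_le z1.1, fun c => c.elim z1.2 z2⟩ e
  · rcases comp a' b' (Or.inr q1) (q2.mono Set.subset_union_right) with ⟨y, hy, r1, r2⟩ | ⟨-, r, -⟩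
    · exact dt y hy x z a' b' u s x2 z2 r1 r2 q3 q4 x1.1
    · exact absurd (conn_mem q2 q1) r

end Pool.Agent.H.MP_28492a_gt
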