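import Pool.Agent.H.MP_28492a_gt.Cmp
import Pool.Agent.H.MP_28492a_gt.Defs
import Pool.Agent.H.MP_95d7dd_gt.Main

set_option autoImplicit false

namespace Pool.Agent.H.MP_28492a_gt

open Filter Topology MeasureTheory Set Multiplicative Metric
open Pool.Agent.H.MP_bf94fe_gt (ind ind_le ind_pos ind_neg ind_iUnion)
open Pool.Agent.H.MP_95d7dd_gt (disj_reg' clos_reg' im_reg)

variable {n : ℕ}

lemma JordanNull.null {S : Set (E n)} (h : JordanNull S) : volume S = 0 := by
  refine le_antisymm (ENNReal.le_of_forall_pos_le_add fun ε hε _ => ?_) zero_le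
  obtain ⟨m, a, s, h1, h2, h3⟩ := h ε hε
  have e : ∀ j, volume (Cube (a j) (s j)) = ENNReal.ofReal (s j ^ n) := fun j => by
    have : Cube (a j) (s j) = WithLp.ofLp ⁻¹' (univ.pi fun i => Icc (a j i) (a j i + s j)) := by
      ext x
      simp [Cube, forall_and, Pi.le_def]
    rw [this, (PiLp.volume_preserving_ofLp (Fin n)).measure_preimage
      (MeasurableSet.univ_pi fun _ => measurableSet_Icc).nullMeasurableSet, volume_pi_pi]
    simp [ENNReal.ofReal_pow (h1 j)]
  refine (measure_mono h2).trans ((measure_iUnion_fintype_le _ _).trans ?_)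
  simp only [e]
  rw [← ENNReal.ofReal_sum_of_nonneg fun j _ => pow_nonneg (h1 j) n, zero_add,
    ← ENNReal.ofReal_coe_nnreal]
  exact ENNReal.ofReal_le_ofReal h3.le

lemma jordan_of_null {K : Set (E n)} (hK : IsCompact K) (h : volume K = 0) : JordanNull K := by
  intro ε hε
  obtain ⟨U, u1, u2, u3⟩ := Set.exists_isOpen_lt_of_lt (μ := volume) K (ENNReal.ofReal ε)
    (by rw [h]; simpa using hε)
  obtain ⟨η, η0, η1⟩ := hK.exists_cthickening_subset_open u2 u1
  have hδ : 0 < η / (n + 1) := by positivity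
  obtain ⟨T, t1, t2, t3⟩ := cubes hδ hK.isBounded
  rw [show (n + 1) * (η / (n + 1)) = η by field_simp] at t2
  refine ⟨T.card, fun j i => (T.equivFin.symm j).1 i * (η / (n + 1)), fun _ => η / (n + 1),
    fun _ => hδ.le, fun x hx => mem_iUnion.2 ⟨T.equivFin ⟨_, t1 x hx⟩, fun i => ?_⟩, ?_⟩
  · simp only [Equiv.symm_apply_apply]
    have := (mem_Qb hδ).2 (rfl : idx _ x = _) i
    exact ⟨this.1.le, this.2⟩
  · have := (measure_mono (iUnion₂_subset fun m hm => (t2 m hm).trans η1)).trans_lt u3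
    rw [t3, ← ENNReal.ofReal_pow hδ.le, ← ENNReal.ofReal_natCast,
      ← ENNReal.ofReal_mul (Nat.cast_nonneg _), ENNReal.ofReal_lt_ofReal_iff hε] at this
    simpa using this

lemma Body.lm {A : Set (E n)} (h : Body A) : Lm (· ∈ A) := Lm.of_frontier h.2.2.null

lemma Body.isOpen {A : Set (E n)} (h : Body A) : IsOpen A := h.1 ▸ isOpen_interior

lemma Lm.frontier {S : Set (E n)} (h : Lm (· ∈ S)) : volume (frontier S) = 0 := by
  refine measure_mono_null ?_ (ae_iff.1 h)
  intro x hx c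
  by_cases a : x ∈ S
  · exact hx.2 (mem_interior_iff_mem_nhds.2 (c.mono fun y hy => hy.mpr a))
  · obtain ⟨y, y1, y2⟩ := mem_closure_iff_nhds.1 hx.1 _ c
    exact a (Eq.mp y1 y2)

lemma ae_join {m : ℕ} {Q : Fin m → Set (E n)} (h1 : ∀ i, IsOpen (Q i)) (h2 : ∀ i, Lm (· ∈ Q i))
    (h3 : Pairwise fun i j => Disjoint (Q i) (Q j)) :
    ∀ᵐ x, ∑ i, ind (x ∈ Q i) = ind (x ∈ Join Q) := by
  filter_upwards [eventually_all.2 fun i => compl_mem_ae_iff.2 (h2 i).frontier] with x hx
  rw [ind_iUnion h3]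
  congr 1
  refine propext ⟨fun a => (isOpen_iUnion h1).subset_interior_closure a, fun a => ?_⟩
  have := interior_subset a
  rw [closure_iUnion_of_finite] at this
  obtain ⟨i, hi⟩ := mem_iUnion.1 this
  exact mem_iUnion.2 ⟨i, by_contra fun c => hx i ⟨hi, fun d => c (interior_subset d)⟩⟩

noncomputable instance : MulAction (E n ≃ᵢ E n) (E n) where
  smul g x := g x
  one_smul _ := rfl
  mul_smul _ _ _ := rfl

lemma iso_smul (g : E n ≃ᵢ E n) (x : E n) : g • x = g x := rfl

instance : ContinuousConstSMul (E n ≃ᵢ E n) (E n) := ⟨fun g => g.continuous⟩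

instance : QI (E n ≃ᵢ E n) (E n) := ⟨fun g => by
  have := (measurePreserving_add_right volume (g 0)).comp
    g.toRealLinearIsometryEquiv.measurePreserving
  rwa [show (fun x => x + g 0) ∘ g.toRealLinearIsometryEquiv = fun x => g • x from
    funext fun x => by simp [iso_smul]] at this⟩

lemma hT (t : Multiplicative (E n)) : ∃ g : E n ≃ᵢ E n, ∀ x : E n, g • x = t • x :=
  ⟨IsometryEquiv.addLeft t.toAdd, fun _ => rfl⟩

lemma mem_im (g : E n ≃ᵢ E n) (S : Set (E n)) (x : E n) : g⁻¹ • x ∈ S ↔ x ∈ g '' S :=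
  ⟨fun c => ⟨_, c, smul_inv_smul g x⟩, by
    rintro ⟨y, hy, rfl⟩
    rwa [← iso_smul, inv_smul_smul]⟩

lemma Eqd.conj (g : E n ≃ᵢ E n) {a b : E n → ℕ} (h : Eqd (Multiplicative (E n)) a b) :
    Eqd (Multiplicative (E n)) (fun x => a (g⁻¹ • x)) fun x => b (g⁻¹ • x) := by
  obtain ⟨m, γ, π, h1, h2, h3⟩ := h
  refine ⟨m, fun i => ofAdd (g.toRealLinearIsometryEquiv (γ i).toAdd), fun i x => π i (g⁻¹ • x),
    fun i => (h1 i).smul _, res_smul g⁻¹ h2, (res_smul g⁻¹ h3).mono fun x hx =>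
      Eq.trans (Finset.sum_congr rfl fun i _ => congrArg (π i) ?_) hx⟩
  obtain ⟨y, rfl⟩ := g.surjective x
  rw [inv_smul_eq_iff, ← iso_smul g y, inv_smul_smul]
  show -g.toRealLinearIsometryEquiv (γ i).toAdd + g y = g (-(γ i).toAdd + y)
  have := g.toRealLinearIsometryEquiv.map_add (-(γ i).toAdd) y
  rw [map_neg, IsometryEquiv.toRealLinearIsometryEquiv_apply g y,
    IsometryEquiv.toRealLinearIsometryEquiv_apply g (_ + _)] at this
  rw [sub_eq_iff_eq_add.1 this]
  abel

lemma Eqd.sum {G I : Type} [Group G] [MulAction G (E n)] (s : Finset I) {a b : I → E n → ℕ}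
    (h : ∀ i, Eqd G (a i) (b i)) : Eqd G (fun x => ∑ i ∈ s, a i x) fun x => ∑ i ∈ s, b i x := by
  classical
  induction s using Finset.induction_on with
  | empty => simpa using Eqd.refl (G := G) (Lm.const (X := E n) 0)
  | insert j s hj ih => simpa only [Finset.sum_insert hj] using (h j).add ih

lemma Nc.add {a b : E n → ℕ} (ha : Nc a) (hb : Nc b) : Nc fun x => a x + b x := by
  obtain ⟨l, ⟨N, h1⟩, R, h2⟩ := ha
  obtain ⟨l', ⟨N', h1'⟩, R', h2'⟩ := hb
  refine ⟨l.comp₂ l' (· + ·), ⟨N + N', ?_⟩, max R R', ?_⟩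
  · filter_upwards [h1, h1'] with x a b using add_le_add a b
  · filter_upwards [h2, h2'] with x p q c
    by_cases d : a x = 0
    · exact (q (by omega)).trans (le_max_right _ _)
    · exact (p d).trans (le_max_left _ _)

lemma Nc.sum {I : Type} (s : Finset I) {a : I → E n → ℕ} (h : ∀ i, Nc (a i)) :
    Nc fun x => ∑ i ∈ s, a i x := by
  classical
  induction s using Finset.induction_on with
  | empty => exact ⟨Lm.const _, ⟨0, by simp⟩, 0, by simp⟩
  | insert j s hj ih => simpa only [Finset.sum_insert hj] using (h j).add ih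

lemma Nc.smul {a : E n → ℕ} (h : Nc a) (g : E n ≃ᵢ E n) : Nc fun x => a (g • x) := by
  obtain ⟨l, ⟨N, h1⟩, R, h2⟩ := h
  refine ⟨l.smul g, ⟨N, res_smul g h1⟩, R + ‖g 0‖, (res_smul g h2).mono fun x hx c => ?_⟩
  have := g.dist_eq x 0
  rw [dist_zero_right, dist_eq_norm] at this
  exact this ▸ (norm_sub_le _ _).trans (add_le_add_left (hx c) _)

lemma Body.nc {A : Set (E n)} (h : Body A) : Nc fun x => ind (x ∈ A) := by
  obtain ⟨R, hR⟩ := isBounded_iff_forall_norm_le.1 h.2.1
  exact ⟨h.lm.comp ind, ⟨1, Eventually.of_forall fun _ => ind_le _⟩, R,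
    Eventually.of_forall fun x hx => hR x (by_contra fun c => hx (ind_neg c))⟩

theorem core (hn : 0 < n) {k : ℕ} (hk : 0 < k) {A B : Set (E n)} (hA : Body A) (hB : Body B)
    (hne : A.Nonempty)
    (h : Eqd (E n ≃ᵢ E n) (fun x => k * ind (x ∈ A)) fun x => k * ind (x ∈ B)) :
    Eqd (E n ≃ᵢ E n) (fun x => ind (x ∈ A)) fun x => ind (x ∈ B) := by
  obtain ⟨s, γ, p, h1, h2, h3⟩ := h
  have np : ∀ j, Nc (p j) := fun j => by
    obtain ⟨R, hR⟩ := hA.nc.sp
    have le : ∀ᵐ x, p j x ≤ k * ind (x ∈ A) := h2.mono fun x hx => (Finset.single_le_sum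
      (f := fun i => p i x) (fun _ _ => Nat.zero_le _) (Finset.mem_univ j)).trans hx.le
    refine ⟨h1 j, ⟨k * 1, le.mono fun x hx => hx.trans (Nat.mul_le_mul_left _ (ind_le _))⟩, R, ?_⟩
    filter_upwards [le, hR] with x a b c using b fun d => c (by simpa [d] using a)
  choose m h m1 m2 m3 using fun j => stabD hn hk (np j)
  have nm := Nc.sum Finset.univ m1
  have nh := Nc.sum Finset.univ m2
  have nm' := Nc.sum Finset.univ fun j => (m1 j).smul (γ j)⁻¹
  have nh' := Nc.sum Finset.univ fun j => (m2 j).smul (γ j)⁻¹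
  obtain ⟨c, c1, c2⟩ := stabR hn hk (hA.nc.add nm) nh ((Eqd.sum Finset.univ m3).congr
    (h2.mono fun x hx => by rw [Finset.sum_add_distrib, hx, mul_add, Finset.mul_sum])
    (Eventually.of_forall fun x => by rw [Finset.mul_sum]))
  obtain ⟨d, d1, d2⟩ := stabR hn hk (hB.nc.add nm') nh'
    ((Eqd.sum Finset.univ fun j => (m3 j).conj (γ j)).congr
    (h3.mono fun x hx => by rw [Finset.sum_add_distrib, hx, mul_add, Finset.mul_sum])
    (Eventually.of_forall fun x => by rw [Finset.mul_sum]))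
  have e1 := Eqd.mk' γ m (fun j => (m1 j).lm) (Eventually.of_forall fun _ => rfl)
    (Eventually.of_forall fun _ => rfl)
  have e2 := Eqd.mk' γ h (fun j => (m2 j).lm) (Eventually.of_forall fun _ => rfl)
    (Eventually.of_forall fun _ => rfl)
  refine cancel_all hn hT hA.lm (hA.isOpen.measure_ne_zero volume hne) hA.nc.lm
    ((nm.add c1).add d1) (Eventually.of_forall fun _ => le_rfl) ?_
  have t1 := (c2.tr hT).add (Eqd.refl d1.lm)
  have t2 := (e2.add (Eqd.refl c1.lm)).add (Eqd.refl d1.lm)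
  have t3 := (d2.tr hT).symm.add (Eqd.refl c1.lm)
  have t4 := (((Eqd.refl hB.nc.lm).add e1.symm).add (Eqd.refl d1.lm)).add (Eqd.refl c1.lm)
  exact (((t1.trans t2).trans (t3.congr (Eventually.of_forall fun _ => by ring)
    (Eventually.of_forall fun _ => rfl))).trans t4).congr (Eventually.of_forall fun _ => by ring)
    (Eventually.of_forall fun _ => by ring)

lemma back {A B : Set (E n)} (hA : Body A) (hB : Body B)
    (h : Eqd (E n ≃ᵢ E n) (fun y => ind (y ∈ A)) (fun y => ind (y ∈ B))) : Equi A B := by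
  classical
  obtain ⟨m, γ, π, r1, r2, r3⟩ := h
  have oA := hA.isOpen
  have oB := hB.isOpen
  set O : Fin m → Set (E n) := fun i => {y | ∀ᶠ z in 𝓝 y, π i z = 1} with hO
  have oO : ∀ i, IsOpen (O i) := fun i => isOpen_setOf_eventually_nhds
  have lO : ∀ i, Lm (· ∈ O i) := fun i => by
    filter_upwards [r1 i] with x hx
    filter_upwards [eventually_eventually_nhds.2 hx] with y hy
    exact propext ⟨fun a => hx.mono fun z hz => hz.trans (hy.self_of_nhds.symm.trans
      a.self_of_nhds), fun a => hy.mono fun z hz => hz.trans a.self_of_nhds⟩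
  have one : ∀ (ρ : Fin m → E n → ℕ) (p : E n → Prop),
      (∀ᵐ y, ∑ i, ρ i y = ind (p y)) → ∀ i j y, (∀ᶠ z in 𝓝 y, ρ i z = 1) →
      (∀ᶠ z in 𝓝 y, ρ j z = 1) → i = j := by
    intro ρ p h i j y a b
    by_contra hne
    obtain ⟨z, z3, z1, z2⟩ := (Measure.dense_of_ae h).inter_nhds_nonempty (a.and b)
    have z3' : ∑ i, ρ i z = ind (p z) := z3
    have := Finset.add_le_sum (s := Finset.univ) (f := fun i => ρ i z)
      (fun _ _ => Nat.zero_le _) (Finset.mem_univ i) (Finset.mem_univ j) hne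
    have := ind_le (p z)
    omega
  have O2 : ∀ i y, y ∈ O i → ∀ᶠ z in 𝓝 (γ i • y), π i ((γ i)⁻¹ • z) = 1 := fun i y hy =>
    (continuous_const_smul (γ i)⁻¹).continuousAt.eventually (p := fun z => π i z = 1)
      (by simpa [hO] using hy)
  have pick : ∀ (ρ : Fin m → ℕ) (p : Prop), ∑ i, ρ i = ind p → p → ∃ i, ρ i = 1 := by
    intro ρ p e hp
    rw [ind_pos hp] at e
    obtain ⟨i, -, hi⟩ := Finset.exists_ne_zero_of_sum_ne_zero (s := Finset.univ) (f := ρ) (by omega)
    have := Finset.single_le_sum (f := ρ) (fun _ _ => Nat.zero_le _) (Finset.mem_univ i)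
    exact ⟨i, by omega⟩
  have pick' : ∀ (ρ : Fin m → ℕ) (p : Prop) (i), ∑ i, ρ i = ind p → ρ i = 1 → p := by
    intro ρ p i e hi
    by_contra hp
    rw [ind_neg hp] at e
    have := Finset.single_le_sum (f := ρ) (fun _ _ => Nat.zero_le _) (Finset.mem_univ i)
    omega
  set Q : Fin m → Set (E n) := fun j => A ∩ O j ∩ γ j ⁻¹' B with hQ
  have oQ : ∀ j, IsOpen (Q j) := fun j => (oA.inter (oO _)).inter (oB.preimage (γ j).continuous)
  have op : ∀ j, IsOpen (γ j '' Q j) := fun j => (γ j).toHomeomorph.isOpenMap _ (oQ j)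
  have lQ : ∀ j, Lm (· ∈ Q j) := fun j => (hA.lm.comp₂ (lO j) And).comp₂ (hB.lm.smul (γ j)) And
  have bQ : ∀ j, Bornology.IsBounded (interior (closure (Q j))) := fun j =>
    (hA.2.1.subset fun x hx => hx.1.1).closure.subset interior_subset
  refine ⟨m, fun j => interior (closure (Q j)), γ, fun j => ⟨interior_closure_idem, bQ j,
    jordan_of_null (isCompact_of_isClosed_isBounded isClosed_frontier
      ((bQ j).closure.subset frontier_subset_closure)) (measure_mono_null
        (frontier_interior_subset.trans frontier_closure_subset) (lQ j).frontier)⟩,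
    fun i j hne => disj_reg' (oQ i) ?_, ?_, fun i j hne => ?_, ?_⟩
  · exact disjoint_left.2 fun x a b => hne (one π _ r2 i j _ a.1.2 b.1.2)
  · rw [Join, clos_reg' oQ, ← hA.1]
    congr 1
    refine Subset.antisymm (closure_minimal (fun x hx => mem_closure_iff.2 fun U hU hxU => ?_)
      isClosed_closure) (closure_mono (iUnion_subset fun j x hx => hx.1.1))
    obtain ⟨x', hx', ⟨a, b⟩, c⟩ := (Measure.dense_of_ae ((r2.and
      (eventually_all.2 r1)).and (eventually_all.2 fun i => res_smul (γ i) r3))).inter_open_nonempty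
      _ (hU.inter oA) ⟨x, hxU, hx⟩
    obtain ⟨i, hi⟩ := pick _ _ a hx'.2
    exact ⟨x', hx'.1, mem_iUnion.2 ⟨i, ⟨hx'.2, (b i).mono fun z hz => hz.trans hi⟩,
      pick' _ _ i (c i) (by rwa [inv_smul_smul])⟩⟩
  · dsimp only
    rw [im_reg, im_reg]
    refine disj_reg' (op i) (disjoint_left.2 ?_)
    rintro _ ⟨x, a, rfl⟩ ⟨x', b, e⟩
    have e' : γ j • x' = γ i • x := e
    exact hne (one (fun i z => π i ((γ i)⁻¹ • z)) _ r3 i j _ (O2 i _ a.1.2) (e' ▸ O2 j _ b.1.2))
  · simp only [Join, im_reg]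
    rw [clos_reg' op, ← hB.1]
    congr 1
    refine Subset.antisymm (closure_minimal (fun x hx => mem_closure_iff.2 fun U hU hxU => ?_)
      isClosed_closure) (closure_mono (iUnion_subset ?_))
    swap
    · rintro j _ ⟨x, hx, rfl⟩
      exact hx.2
    obtain ⟨y, hy, a, c⟩ := (Measure.dense_of_ae (r3.and (eventually_all.2 fun i =>
      res_smul (γ i)⁻¹ (r2.and (r1 i))))).inter_open_nonempty _ (hU.inter oB) ⟨x, hxU, hx⟩
    obtain ⟨i, hi⟩ := pick _ _ a hy.2
    have e : γ i ((γ i)⁻¹ • y) = y := smul_inv_smul (γ i) y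
    refine ⟨y, hy.1, mem_iUnion.2 ⟨i, (γ i)⁻¹ • y, ⟨⟨pick' _ _ i (c i).1 hi, ?_⟩,
      by rw [mem_preimage, e]; exact hy.2⟩, e⟩⟩
    have := (c i).2
    rw [hi] at this
    exact this

lemma forth {m : ℕ} {P : Fin m → Set (E n)} (g : Fin m → E n ≃ᵢ E n) (h1 : ∀ i, Body (P i))
    (h2 : Pairwise fun i j => Disjoint (g i '' P i) (g j '' P j)) :
    Eqd (E n ≃ᵢ E n) (fun x => ∑ i, ind (x ∈ P i)) fun x => ind (x ∈ Join fun i => g i '' P i) := by
  refine ⟨m, g, fun i x => ind (x ∈ P i), fun i => (h1 i).nc.lm,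
    Eventually.of_forall fun _ => rfl, ?_⟩
  simp only [mem_im]
  exact ae_join (fun i => (g i).toHomeomorph.isOpenMap _ (h1 i).isOpen)
    (fun i => by simpa only [mem_im] using (h1 i).lm.smul (g i)⁻¹) h2

theorem main (hn : 0 < n) {k : ℕ} (hk : 0 < k) {A B : Set (E n)} (hA : Body A) (hB : Body B)
    (f g : Fin k → E n ≃ᵢ E n) (hf : Pairwise fun i j => Disjoint (f i '' A) (f j '' A))
    (hg : Pairwise fun i j => Disjoint (g i '' B) (g j '' B))
    (h : Equi (Join fun i => f i '' A) (Join fun i => g i '' B)) : Equi A B := by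
  obtain ⟨m, P, γ, p1, p2, p3, p4, p5⟩ := h
  rcases A.eq_empty_or_nonempty with rfl | hne
  · have e1 : ∀ i, P i = ∅ := fun i => by
      have := (subset_iUnion P i).trans
        (isOpen_iUnion fun i => (p1 i).isOpen).subset_interior_closure
      rw [← Join, ← p3] at this
      simpa [Join] using this
    have e2 : B = ∅ := by
      have := (subset_iUnion (fun i => g i '' B) ⟨0, hk⟩).trans (isOpen_iUnion fun i =>
        (g i).toHomeomorph.isOpenMap _ hB.isOpen).subset_interior_closure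
      rw [← Join] at this
      simpa [e1, Join] using this.trans p5.subset
    exact ⟨0, Fin.elim0, Fin.elim0, fun i => i.elim0, fun i => i.elim0, by simp [Join],
      fun i => i.elim0, by simp [e2, Join]⟩
  have a := forth (P := fun _ => A) f (fun _ => hA) hf
  have b := forth (P := fun _ => B) g (fun _ => hB) hg
  have c := forth γ p1 p4
  rw [p3] at a
  rw [← p5] at c
  exact back hA hB (core hn hk hA hB hne (((a.trans (c.congr (ae_join (fun i => (p1 i).isOpen)
    (fun i => (p1 i).lm) p2) (Eventually.of_forall fun _ => rfl))).trans b.symm).congr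
    (Eventually.of_forall fun _ => by simp) (Eventually.of_forall fun _ => by simp)))

end Pool.Agent.H.MP_28492a_gt
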