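import Pool.Agent.H.MP_bf94fe_gt.Graph

set_option autoImplicit false

namespace Pool.Agent.H.MP_28492a_gt

open Finset Relation
open Pool.Agent.H.MP_bf94fe_gt (Adj Conn)

variable {G ι : Type} [Group G] [Fintype ι] {σ : ι → G}

variable (σ) in
def dg (c : G → ι → ℤ) (g : G) : ℤ := ∑ i, c g i - ∑ i, c ((σ i)⁻¹ * g) i

lemma dg_add (a b : G → ι → ℤ) (g : G) : dg σ (a + b) g = dg σ a g + dg σ b g := by
  simp only [dg, Pi.add_apply, sum_add_distrib]
  ring

lemma dg_smul (r : ℤ) (a : G → ι → ℤ) (g : G) : dg σ (r • a) g = r * dg σ a g := by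
  simp only [dg, Pi.smul_apply, smul_eq_mul, ← mul_sum]
  ring

open Classical in
lemma dg_single (b : G) (j : ι) (g : G) :
    dg σ (fun a i => if a = b ∧ i = j then 1 else 0) g =
      (if g = b then 1 else 0) - if g = σ j * b then 1 else 0 := by
  unfold dg
  rw [sum_eq_single j (by simp +contextual) (by simp), sum_eq_single j (by simp +contextual)
    (by simp)]
  simp only [and_true, inv_mul_eq_iff_eq_mul]

lemma dg_sum {c : G → ι → ℤ} {K : Finset G} (hc : ∀ g i, c g i ≠ 0 → g ∈ K ∧ σ i * g ∈ K)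
    (f : G → ℤ) : ∑ g ∈ K, f g * dg σ c g = ∑ g ∈ K, ∑ i, c g i * (f g - f (σ i * g)) := by
  simp only [dg, mul_sub, mul_sum, sum_sub_distrib]
  congr 1
  · simp only [mul_comm]
  rw [sum_comm, sum_comm (s := K)]
  refine sum_congr rfl fun i _ => ?_
  refine sum_bij_ne_zero (fun g _ _ => (σ i)⁻¹ * g) (fun g _ h => (hc _ i (right_ne_zero_of_mul h)).1)
    (fun a _ _ b _ _ e => mul_left_cancel e)
    (fun g _ h => ⟨σ i * g, (hc _ i (left_ne_zero_of_mul h)).2, by simpa [mul_comm] using h,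
      by simp⟩) fun g _ _ => by simp [mul_comm]

lemma dg_ne {c : G → ι → ℤ} {g : G} (h : dg σ c g ≠ 0) :
    ∃ i, c g i ≠ 0 ∨ c ((σ i)⁻¹ * g) i ≠ 0 := by
  by_contra a
  push Not at a
  simp [dg, a] at h

open Classical in
lemma chain {P : Set G} {u v : G} (h : Conn σ P u v) : ∃ J : G → ι → ℤ,
    (∀ g i, J g i ≠ 0 → g ∈ P ∧ σ i * g ∈ P) ∧
      ∀ g, dg σ J g = (if g = u then 1 else 0) - if g = v then 1 else 0 := by
  induction h with
  | refl => exact ⟨0, by simp, by simp [dg]⟩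
  | @tail b c _ h2 ih =>
    obtain ⟨J, j1, j2⟩ := ih
    obtain ⟨hb, hc, i, rfl | rfl⟩ := h2
    · refine ⟨J + fun a j => if a = b ∧ j = i then 1 else 0, fun g j e => ?_, fun g => ?_⟩
      · by_cases a : g = b ∧ j = i
        · exact a.1 ▸ a.2 ▸ ⟨hb, hc⟩
        · exact j1 g j (by simpa [a] using e)
      · rw [dg_add, j2, dg_single]
        ring
    · refine ⟨J + (-1 : ℤ) • fun a j => if a = c ∧ j = i then 1 else 0, fun g j e => ?_,
        fun g => ?_⟩
      · by_cases a : g = c ∧ j = i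
        · exact a.1 ▸ a.2 ▸ ⟨hc, hb⟩
        · exact j1 g j (by simpa [a] using e)
      · rw [dg_add, j2, dg_smul, dg_single]
        ring

open Classical in
lemma route {P : Set G} (T : Finset G) (w : G → G) (h : ∀ t ∈ T, Conn σ P t (w t)) (d : G → ℤ) :
    ∃ J : G → ι → ℤ, (∀ g i, J g i ≠ 0 → g ∈ P ∧ σ i * g ∈ P) ∧
      ∀ g, dg σ J g = (if g ∈ T then d g else 0) - ∑ t ∈ T, if g = w t then d t else 0 := by
  induction T using Finset.induction_on with
  | empty => exact ⟨0, by simp, by simp [dg]⟩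
  | insert t T ht ih =>
    obtain ⟨J, j1, j2⟩ := ih fun s hs => h s (mem_insert_of_mem hs)
    obtain ⟨J', j3, j4⟩ := chain (h t (mem_insert_self _ _))
    refine ⟨J + d t • J', fun g i e => ?_, fun g => ?_⟩
    · by_cases a : J' g i = 0
      · exact j1 g i (by simpa [a] using e)
      · exact j3 g i a
    · rw [dg_add, dg_smul, j2, j4, sum_insert ht]
      by_cases a : g = t
      · subst a
        simp only [ht, mem_insert_self, if_true, if_false]
        split_ifs <;> ring
      · simp only [mem_insert, a, false_or, if_false]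
        split_ifs <;> ring

theorem tutte {k : ℤ} (hk : 0 < k) {K : Finset G} {c0 : G → ι → ℤ}
    (hs : ∀ g i, c0 g i ≠ 0 → g ∈ K ∧ σ i * g ∈ K) (hd : ∀ g, k ∣ dg σ c0 g) :
    ∃ c : G → ι → ℤ, (∀ g i, k ∣ c g i - c0 g i ∧ |c g i| < k) ∧ ∀ g, dg σ c g = 0 := by
  classical
  suffices h : ∀ n (c : G → ι → ℤ), ∑ g ∈ K, (dg σ c g).natAbs = n →
      (∀ g i, k ∣ c g i - c0 g i ∧ |c g i| < k) →
      ∃ c : G → ι → ℤ, (∀ g i, k ∣ c g i - c0 g i ∧ |c g i| < k) ∧ ∀ g, dg σ c g = 0 from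
    h _ (fun g i => c0 g i % k) rfl fun g i => ⟨⟨-(c0 g i / k), by
      rw [Int.emod_def]; ring⟩, by
        rw [abs_of_nonneg (Int.emod_nonneg _ hk.ne')]; exact Int.emod_lt_of_pos _ hk⟩
  intro n
  induction n using Nat.strong_induction_on with
  | h n ih =>
  intro c hn hc
  have sp : ∀ g i, c g i ≠ 0 → g ∈ K ∧ σ i * g ∈ K := fun g i a => hs g i fun b =>
    a (Int.eq_zero_of_abs_lt_dvd (by simpa [b] using (hc g i).1) (hc g i).2)
  have mK : ∀ g, dg σ c g ≠ 0 → g ∈ K := fun g a => by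
    obtain ⟨i, b | b⟩ := dg_ne a
    · exact (sp _ _ b).1
    · simpa using (sp _ _ b).2
  have dv : ∀ g, k ∣ dg σ c g := fun g => by
    have : dg σ c g = dg σ c0 g + (∑ i, (c g i - c0 g i) -
        ∑ i, (c ((σ i)⁻¹ * g) i - c0 ((σ i)⁻¹ * g) i)) := by
      simp only [dg, sum_sub_distrib]
      ring
    rw [this]
    exact dvd_add (hd g) (dvd_sub (dvd_sum fun i _ => (hc _ _).1) (dvd_sum fun i _ => (hc _ _).1))
  by_cases h0 : ∀ g, dg σ c g ≤ 0
  · refine ⟨c, hc, fun g => by_contra fun a => ?_⟩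
    have := dg_sum sp fun _ => 1
    simp only [one_mul, sub_self, mul_zero, sum_const_zero] at this
    exact a ((sum_eq_zero_iff_of_nonpos fun g _ => h0 g).1 this g (mK g a))
  push Not at h0
  obtain ⟨x, hx⟩ := h0
  let re : ℕ → G → Prop := fun m => Nat.rec (fun y => y = x) (fun _ r y => r y ∨ ∃ b i, r b ∧
    ((y = σ i * b ∧ 0 < c b i) ∨ (b = σ i * y ∧ c y i < 0))) m
  have path : ∀ m y, re m y → ∃ J : G → ι → ℤ, (∀ g i, J g i = 0 ∨ ((re m g ∧ re m (σ i * g)) ∧
      ((J g i = 1 ∧ 0 < c g i) ∨ (J g i = -1 ∧ c g i < 0)))) ∧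
      ∀ g, dg σ J g = (if g = x then 1 else 0) - if g = y then 1 else 0 := by
    intro m
    induction m with
    | zero =>
      intro y hy
      have e : y = x := hy
      exact ⟨0, by simp, by simp [dg, e]⟩
    | succ m ih =>
      intro y hy
      have mono : ∀ {g}, re m g → re (m + 1) g := fun a => Or.inl a
      rcases em (re m y) with a | a
      · obtain ⟨J, j1, j2⟩ := ih y a
        exact ⟨J, fun g i => (j1 g i).imp_right fun b => ⟨⟨mono b.1.1, mono b.1.2⟩, b.2⟩, j2⟩
      obtain ⟨b, i, hb, e⟩ := hy.resolve_left a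
      obtain ⟨J, j1, j2⟩ := ih b hb
      rcases e with ⟨rfl, e⟩ | ⟨rfl, e⟩
      · refine ⟨J + fun a j => if a = b ∧ j = i then 1 else 0, fun g j => ?_, fun g => ?_⟩
        · by_cases p : g = b ∧ j = i
          · obtain ⟨rfl, rfl⟩ := p
            have := (j1 g j).resolve_right fun q => a q.1.2
            exact Or.inr ⟨⟨mono hb, hy⟩, Or.inl ⟨by simp [this], e⟩⟩
          · simpa [p] using (j1 g j).imp_right fun b => And.intro (And.intro (mono b.1.1)
              (mono b.1.2)) b.2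
        · rw [dg_add, j2, dg_single]
          ring
      · refine ⟨J + (-1 : ℤ) • fun a j => if a = y ∧ j = i then 1 else 0, fun g j => ?_,
          fun g => ?_⟩
        · by_cases p : g = y ∧ j = i
          · obtain ⟨rfl, rfl⟩ := p
            have := (j1 g j).resolve_right fun q => a q.1.1
            exact Or.inr ⟨⟨hy, mono hb⟩, Or.inr ⟨by simp [this], e⟩⟩
          · simpa [p] using (j1 g j).imp_right fun b => And.intro (And.intro (mono b.1.1)
              (mono b.1.2)) b.2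
        · rw [dg_add, j2, dg_smul, dg_single]
          ring
  rcases em (∃ m y, re m y ∧ dg σ c y < 0) with h1 | h1
  · obtain ⟨m, y, y1, y2⟩ := h1
    obtain ⟨J, j1, j2⟩ := path m y y1
    have x1 := Int.le_of_dvd hx (dv x)
    have x2 := Int.le_of_dvd (neg_pos.2 y2) (dvd_neg.2 (dv y))
    have ne : x ≠ y := by
      rintro rfl
      omega
    refine ih _ ?_ (c + (-k) • J) rfl fun g i => ⟨?_, ?_⟩
    · rw [← hn]
      refine sum_lt_sum (fun g _ => ?_) ⟨x, mK x hx.ne', ?_⟩
      · rw [dg_add, dg_smul, j2]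
        split_ifs with p q q
        · exact absurd (p.symm.trans q) ne
        · subst p
          omega
        · subst q
          omega
        · omega
      · rw [dg_add, dg_smul, j2, if_pos rfl, if_neg ne]
        omega
    · have : (c + (-k) • J) g i - c0 g i = c g i - c0 g i + k * -J g i := by
        simp only [Pi.add_apply, Pi.smul_apply, smul_eq_mul]
        ring
      rw [this]
      exact dvd_add (hc g i).1 (dvd_mul_right _ _)
    · have := abs_lt.1 (hc g i).2
      simp only [Pi.add_apply, Pi.smul_apply, smul_eq_mul, abs_lt]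
      rcases j1 g i with p | ⟨-, ⟨p, q⟩ | ⟨p, q⟩⟩ <;> rw [p] <;> omega
  push Not at h1
  haveI : ∀ g, Decidable (∃ m, re m g) := fun _ => Classical.propDecidable _
  have e := dg_sum sp fun g => if ∃ m, re m g then 1 else 0
  have a1 : 0 < ∑ g ∈ K, (if ∃ m, re m g then 1 else 0) * dg σ c g := by
    refine sum_pos' (fun g _ => ?_) ⟨x, mK x hx.ne', ?_⟩
    · split_ifs with p
      · obtain ⟨m, p⟩ := p
        simpa using h1 m g p
      · simp
    · rw [if_pos ⟨0, rfl⟩]
      simpa using hx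
  refine absurd (e ▸ a1) (not_lt.2 (sum_nonpos fun g _ => sum_nonpos fun i _ => ?_))
  split_ifs with p q q
  · simp
  · obtain ⟨m, p⟩ := p
    have : ¬ 0 < c g i := fun a => q ⟨m + 1, Or.inr ⟨g, i, p, Or.inl ⟨rfl, a⟩⟩⟩
    omega
  · obtain ⟨m, q⟩ := q
    have : ¬ c g i < 0 := fun a => p ⟨m + 1, Or.inr ⟨_, i, q, Or.inr ⟨rfl, a⟩⟩⟩
    omega
  · simp

end Pool.Agent.H.MP_28492a_gt
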