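import Pool.Agent.H.MP_28492a_gt.Toast
import Pool.Agent.H.MP_28492a_gt.Tutte

set_option autoImplicit false

namespace Pool.Agent.H.MP_28492a_gt

open Finset Relation Filter MeasureTheory
open Pool.Agent.H.MP_bf94fe_gt (Adj Conn)

section grp

variable {G ι : Type} [Group G] [Fintype ι] {σ : ι → G} {ν : G → ℕ}

variable (σ) in
def d1 (a : G → ((ι → ℤ) × ℤ) × Prop) : ℤ := ∑ i, (a 1).1.1 i - ∑ i, (a (σ i)⁻¹).1.1 i

variable (σ) in
def PR (k M : ℤ) (a : G → ((ι → ℤ) × ℤ) × Prop) : Prop :=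
  d1 σ a = k * (a 1).1.2 ∧ ∀ i, (¬ (a 1).2 → ¬ (a (σ i)).2 → |(a 1).1.1 i| ≤ M) ∧
    (¬ k ∣ (a 1).1.1 i → |(a 1).1.1 i| ≤ M + k) ∧ |(a 1).1.1 i| ≤ M + 2 * k

variable (σ) in
def FR (k : ℤ) (a : G → ((ι → ℤ) × ℤ) × Prop) : Prop :=
  (a 1).2 ∧ ∀ i, k ∣ (a 1).1.1 i ∧ k ∣ (a (σ i)⁻¹).1.1 i

variable (σ) in
def PD (k : ℤ) (a : G → ((ι → ℤ) × ℤ) × Prop) : Prop :=
  (∀ i, 0 ≤ (a 1).1.1 i ∧ (a 1).1.1 i < k) ∧ ((a 1).2 → k ∣ (a 1).1.2 - d1 σ a)

lemma d1_cfg (l : G → (ι → ℤ) × ℤ) (W : Set G) (h : G) :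
    d1 σ (cfg l W h) = dg σ (fun g => (l g).1) h := by simp [d1, cfg, dg]

omit [Fintype ι] in
lemma Geo.loc (hg : Geo σ ν) {γ : Type} {a b : G → γ} (h : ∀ g, ν g ≤ 1 → a g = b g) :
    a 1 = b 1 ∧ (∀ i, a (σ i) = b (σ i)) ∧ ∀ i, a (σ i)⁻¹ = b (σ i)⁻¹ :=
  ⟨h 1 (by simp [hg.one]), fun i => h _ (hg.gen i), fun i => h _ ((hg.inv _).trans_le (hg.gen i))⟩

lemma loc_PR (hg : Geo σ ν) (k M : ℤ) : Loc ν (PR σ k M) := fun a b h => by
  obtain ⟨h1, h2, h3⟩ := hg.loc h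
  simp only [PR, d1, h1, h2, h3, imp_self]

omit [Fintype ι] in
lemma loc_FR (hg : Geo σ ν) (k : ℤ) : Loc ν (FR σ k) := fun a b h => by
  obtain ⟨h1, -, h3⟩ := hg.loc h
  simp only [FR, h1, h3, imp_self]

lemma loc_PD (hg : Geo σ ν) (k : ℤ) : Loc ν (PD σ k) := fun a b h => by
  obtain ⟨h1, -, h3⟩ := hg.loc h
  simp only [PD, d1, h1, h3, imp_self]

lemma move_R {k : ℤ} (hk : 0 < k) (M : ℤ) : Move σ Prod.snd (PR σ k M) (FR σ k) := by
  classical
  intro l W L K p hP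
  set ψ : G → ι → ℤ := fun g => (l g).1 with hψ
  have dψ : ∀ g, dg σ ψ g = k * (l g).2 := fun g => by
    have := (hP g).1
    rw [d1_cfg] at this
    simpa [cfg] using this
  have bψ : ∀ g i, (g ∉ W → σ i * g ∉ W → |ψ g i| ≤ M) ∧ (¬ k ∣ ψ g i → |ψ g i| ≤ M + k) ∧
      |ψ g i| ≤ M + 2 * k := fun g i => by simpa [cfg] using (hP g).2 i
  set c1 : G → ι → ℤ := fun g i => if g ∈ L ∨ σ i * g ∈ L then -ψ g i else 0 with hc1
  have s1 : ∀ g i, c1 g i ≠ 0 → g ∈ L ∨ σ i * g ∈ L := fun g i a => by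
    by_contra b
    exact a (if_neg b)
  have s2 : ∀ g i, g ∈ L ∨ σ i * g ∈ L → g ∈ K ∧ σ i * g ∈ K := fun g i a => a.elim
    (fun b => ⟨p.sub b, p.nb _ b _ ⟨i, Or.inl rfl⟩⟩) fun b => ⟨p.nb _ b _ ⟨i, Or.inr rfl⟩, p.sub b⟩
  have mK : ∀ g, g ∈ p.fin.toFinset ↔ g ∈ K := fun g => p.fin.mem_toFinset
  set T := p.fin.toFinset.filter fun u => u ∉ L ∧ ∃ a ∈ L, Adj σ a u with hT
  obtain ⟨u0, hu0⟩ : ∃ u0, ∀ t ∈ T, Conn σ (K \ (W ∪ L)) t u0 := by
    rcases T.eq_empty_or_nonempty with e | ⟨u, hu⟩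
    · exact ⟨1, by simp [e]⟩
    · exact ⟨u, fun t ht => p.conL _ _ (mem_filter.1 ht).2.1 (mem_filter.1 hu).2.1
        (mem_filter.1 ht).2.2 (mem_filter.1 hu).2.2⟩
  obtain ⟨J, j1, j2⟩ := route T (fun _ => u0) hu0 (dg σ c1)
  have dv1 : ∀ g, g ∉ T → k ∣ dg σ c1 g := by
    intro g hg
    by_cases a : g ∈ L
    · have : dg σ c1 g = -dg σ ψ g := by
        simp only [dg, hc1, a, true_or, if_true, mul_inv_cancel_left, or_true, sum_neg_distrib]
        ring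
      rw [this, dψ]
      exact dvd_neg.2 (dvd_mul_right _ _)
    · by_cases b : dg σ c1 g = 0
      · simp [b]
      have : ∃ a ∈ L, Adj σ a g := by
        obtain ⟨i, c | c⟩ := dg_ne b
        · exact ⟨_, (s1 _ _ c).resolve_left a, i, Or.inr rfl⟩
        · exact ⟨_, (s1 _ _ c).resolve_right (by simpa using a), i, Or.inl (by simp)⟩
      obtain ⟨u, u1, u2⟩ := this
      exact absurd (mem_filter.2 ⟨(mK _).2 (p.nb u u1 g u2), a, u, u1, u2⟩) hg
  have dv2 : k ∣ ∑ t ∈ T, dg σ c1 t := by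
    have := dg_sum (K := p.fin.toFinset) (c := c1)
      (fun g i a => by simpa only [mK] using s2 g i (s1 g i a)) fun _ => 1
    simp only [one_mul, sub_self, mul_zero, sum_const_zero] at this
    rw [← sum_sdiff (show T ⊆ _ from filter_subset _ _), add_eq_zero_iff_eq_neg] at this
    rw [← dvd_neg, ← this]
    exact dvd_sum fun g hg => dv1 g (mem_sdiff.1 hg).2
  obtain ⟨c, c2, c3⟩ := tutte hk (K := p.fin.toFinset) (σ := σ) (c0 := c1 + (-1 : ℤ) • J)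
    (fun g i a => by
      simp only [mK]
      by_cases b : J g i = 0
      · exact s2 g i (s1 g i (by simpa [b] using a))
      · exact ⟨(j1 g i b).1.1, (j1 g i b).2.1⟩)
    (fun g => by
      rw [dg_add, dg_smul, j2]
      have : k ∣ ∑ t ∈ T, if g = u0 then dg σ c1 t else 0 := by
        split_ifs
        exacts [dv2, by simp]
      generalize (∑ t ∈ T, if g = u0 then dg σ c1 t else 0) = S at this ⊢
      split_ifs with a
      · simpa using this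
      · simpa using dvd_add (dv1 g a) this)
  have z : ∀ g i, k ∣ c g i → c g i = 0 := fun g i a => Int.eq_zero_of_abs_lt_dvd a (c2 g i).2
  have eL : ∀ g i, g ∈ L ∨ σ i * g ∈ L → k ∣ ψ g i + c g i := fun g i a => by
    have b : J g i = 0 := by
      by_contra b
      exact a.elim (fun a => (j1 g i b).1.2 (Or.inr a)) fun a => (j1 g i b).2.2 (Or.inr a)
    simpa [hc1, a, b, add_comm] using (c2 g i).1
  have eN : ∀ g i, c g i ≠ 0 → (g ∈ K ∧ σ i * g ∈ K) ∧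
      (¬ k ∣ ψ g i ∧ k ∣ ψ g i + c g i ∨ g ∉ W ∧ σ i * g ∉ W) := fun g i a => by
    by_cases b : g ∈ L ∨ σ i * g ∈ L
    · exact ⟨s2 g i b, Or.inl ⟨fun d => a (z g i ((dvd_add_right d).1 (eL g i b))), eL g i b⟩⟩
    · have d : J g i ≠ 0 := fun d => a (z g i (by simpa [hc1, b, d] using (c2 g i).1))
      exact ⟨⟨(j1 g i d).1.1, (j1 g i d).2.1⟩, Or.inr ⟨fun w => (j1 g i d).1.2 (Or.inl w),
        fun w => (j1 g i d).2.2 (Or.inl w)⟩⟩
  have eF : ∀ g i, g ∈ W ∨ σ i * g ∈ W → k ∣ ψ g i → c g i = 0 := fun g i a b => by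
    by_contra d
    rcases (eN g i d).2 with e | e
    · exact e.1 b
    · exact a.elim e.1 e.2
  refine ⟨fun g => ((ψ + c) g, (l g).2), fun g a => Or.inl ?_, fun _ => rfl, fun h => ⟨?_,
    fun i => ?_⟩, fun h f => ?_, fun h a => ?_⟩
  · by_contra b
    refine a (Prod.ext (funext fun i => ?_) rfl)
    have : c g i = 0 := by_contra fun d => b (eN g i d).1.1
    simp [this, hψ]
  · rw [d1_cfg, dg_add, c3, dψ]
    simp [cfg]
  · simp only [cfg, one_mul, Pi.add_apply, Set.mem_union, not_or]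
    have b := bψ h i
    by_cases a : c h i = 0
    · simp only [a, add_zero]
      exact ⟨fun p q => b.1 p.1 q.1, b.2⟩
    have t := abs_add_le (ψ h i) (c h i)
    have := (c2 h i).2
    obtain ⟨e1, ⟨e2, e3⟩ | e2⟩ := eN h i a
    · have := b.2.1 e2
      exact ⟨fun p => absurd e1.1 p.2, fun p => absurd e3 p, by omega⟩
    · have := b.1 e2.1 e2.2
      exact ⟨fun p => absurd e1.1 p.2, fun _ => by omega, by omega⟩
  · simp only [FR, cfg, one_mul] at f ⊢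
    have a := fun i => eF h i (Or.inl f.1) (f.2 i).1
    have b := fun i => eF ((σ i)⁻¹ * h) i (Or.inr (by simpa using f.1)) (f.2 i).2
    refine ⟨⟨Or.inl f.1, fun i => ?_⟩, Prod.ext (funext fun i => by simp [a, hψ]) rfl⟩
    simpa only [Pi.add_apply, a, b, add_zero] using f.2 i
  · simp only [FR, cfg, one_mul]
    exact ⟨Or.inr (p.sub a), fun i => ⟨eL _ _ (Or.inl a), eL _ _ (Or.inr (by simpa using a))⟩⟩

lemma move_D {k : ℤ} (hk : 0 < k) : Move σ Prod.snd (PD σ k) fun a => (a 1).2 := by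
  classical
  intro l W L K p hP
  set ψ : G → ι → ℤ := fun g => (l g).1 with hψ
  have bψ : ∀ g i, 0 ≤ ψ g i ∧ ψ g i < k := fun g i => by simpa [cfg] using (hP g).1 i
  have dψ : ∀ g ∈ W, k ∣ (l g).2 - dg σ ψ g := fun g a => by
    have := (hP g).2
    rw [d1_cfg] at this
    simpa [cfg, a] using this
  set T := p.fin.toFinset.filter fun u => u ∉ W with hT
  have : ∀ t, ∃ w, t ∈ T → w ∉ K ∧ w ∉ W ∧
      Conn σ {g | g ∉ W ∧ (g ∈ K ∨ ∃ a ∈ K, Adj σ a g)} t w := by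
    intro t
    obtain ⟨w, w1, w2⟩ := p.out
    have : ∀ a, Conn σ Wᶜ a w → a ∈ K → ∃ w, w ∉ K ∧ w ∉ W ∧
        Conn σ {g | g ∉ W ∧ (g ∈ K ∨ ∃ a ∈ K, Adj σ a g)} a w := by
      intro a c
      induction c using ReflTransGen.head_induction_on with
      | refl => exact fun a => absurd a w2
      | @head a b e c ih =>
        intro ha
        have st : Conn σ {g | g ∉ W ∧ (g ∈ K ∨ ∃ a ∈ K, Adj σ a g)} a b :=
          Conn.step ⟨e.1, Or.inl ha⟩ ⟨e.2.1, Or.inr ⟨a, ha, e.2.2⟩⟩ e.2.2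
        by_cases hb : b ∈ K
        · obtain ⟨y, y1, y2, y3⟩ := ih hb
          exact ⟨y, y1, y2, st.trans y3⟩
        · exact ⟨b, hb, e.2.1, st⟩
    by_cases ht : t ∈ T
    · obtain ⟨y, hy⟩ := this t (p.conW _ _ (mem_filter.1 ht).2 w1)
        (p.fin.mem_toFinset.1 (mem_filter.1 ht).1)
      exact ⟨y, fun _ => hy⟩
    · exact ⟨1, fun a => absurd a ht⟩
  choose w hw using this
  obtain ⟨J, j1, j2⟩ := route T w (fun t a => (hw t a).2.2) fun g => (l g).2 - dg σ ψ g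
  have same : ∀ g, (∀ i, J g i = 0) → ((fun i => (ψ + J) g i % k), (l g).2) = l g := fun g a =>
    Prod.ext (funext fun i => by
      simpa [a] using Int.emod_eq_of_lt (bψ g i).1 (bψ g i).2) rfl
  refine ⟨fun g => (fun i => (ψ + J) g i % k, (l g).2), fun g a => ?_, fun _ => rfl,
    fun h => ⟨fun i => ⟨Int.emod_nonneg _ hk.ne', Int.emod_lt_of_pos _ hk⟩, fun a => ?_⟩,
    fun h f => ⟨Or.inl f, same h fun i => by_contra fun a => (j1 _ _ a).1.1 (by simpa [cfg] using f)⟩,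
    fun h a => Or.inr (by simpa using p.sub a)⟩
  · by_contra b
    exact a (same g fun i => by_contra fun c => b (j1 _ _ c).1.2)
  · rw [d1_cfg]
    have a' : h ∈ W ∨ h ∈ K := by simpa [cfg] using a
    have e1 : (fun g i => (ψ + J) g i % k) = ψ + J + (-k) • fun g i => (ψ + J) g i / k := by
      funext g i
      simp only [Pi.add_apply, Pi.smul_apply, smul_eq_mul, Int.emod_def]
      ring
    have e2 : (∑ t ∈ T, if h = w t then (l t).2 - dg σ ψ t else 0) = 0 :=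
      sum_eq_zero fun t ht => if_neg fun e : h = w t =>
        a'.elim (e ▸ (hw t ht).2.1) (e ▸ (hw t ht).1)
    simp only [cfg, one_mul]
    rw [e1, dg_add, dg_add, dg_smul, j2, e2]
    split_ifs with b
    · exact ⟨dg σ (fun g i => (ψ + J) g i / k) h, by ring⟩
    · have : h ∈ W := by_contra fun c =>
        b (mem_filter.2 ⟨p.fin.mem_toFinset.2 (a'.resolve_left c), c⟩)
      obtain ⟨m, hm⟩ := dψ h this
      exact ⟨m + dg σ (fun g i => (ψ + J) g i / k) h, by linear_combination hm⟩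

end grp

variable {X G ι : Type} [MetricSpace X] [MeasureSpace X] [BorelSpace X] [CompactSpace X]
  [IsFiniteMeasure (volume : Measure X)] [CommGroup G] [MulAction G X] [ContinuousConstSMul G X]
  [QI G X] [Fintype ι] {σ : ι → G} {ν : G → ℕ} [Countable G] [Nonempty X]

variable (σ) in
def dv (ψ : X → ι → ℤ) (x : X) : ℤ := ∑ i, ψ x i - ∑ i, ψ ((σ i)⁻¹ • x) i

theorem round_R (hg : Geo σ ν) (hfree : ∀ g : G, g ≠ 1 → ∀ x : X, g • x ≠ x) {k : ℤ} (hk : 0 < k)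
    {ψ : X → ι → ℤ} {f : X → ℤ} (h1 : Lm ψ) (h2 : Lm f) {M : ℤ} (h3 : ∀ᵐ x : X, ∀ i, |ψ x i| ≤ M)
    (h4 : ∀ᵐ x : X, dv σ ψ x = k * f x) :
    ∃ φ : X → ι → ℤ, Lm φ ∧ (∀ᵐ x : X, ∀ i, |φ x i| ≤ M + 2 * k) ∧ ∀ᵐ x : X, dv σ φ x = f x := by
  obtain ⟨l, l1, l2⟩ := toast hg hfree (loc_PR hg k M) (loc_FR hg k) (move_R hk M)
    (h1.comp₂ h2 Prod.mk) (by
      filter_upwards [h3, h4] with x a b
      simp only [PR, d1, oc, one_smul]
      exact ⟨b, fun i => ⟨fun _ _ => a i, fun _ => by have := a i; omega,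
        by have := a i; omega⟩⟩)
  refine ⟨fun x i => (l x).1 i / k, l1.comp fun a i => a.1 i / k, ?_, ?_⟩
  · filter_upwards [l2] with x ⟨_, W, a, _⟩ i
    have := (a.2 i).2.2
    simp only [oc, one_smul] at this
    exact (Int.abs_ediv_le_abs _ _).trans this
  · filter_upwards [l2] with x ⟨e, W, a, b⟩
    have c := a.1
    simp only [FR, d1, oc, one_smul] at b c e
    refine mul_left_cancel₀ hk.ne' ?_
    rw [← e, ← c, dv, mul_sub, mul_sum, mul_sum]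
    congr 1
    · exact sum_congr rfl fun i _ => Int.mul_ediv_cancel' (b.2 i).1
    · exact sum_congr rfl fun i _ => Int.mul_ediv_cancel' (b.2 i).2

theorem round_D (hg : Geo σ ν) (hfree : ∀ g : G, g ≠ 1 → ∀ x : X, g • x ≠ x) {k : ℤ} (hk : 0 < k)
    {f : X → ℤ} (h2 : Lm f) :
    ∃ φ : X → ι → ℤ, Lm φ ∧ (∀ᵐ x : X, ∀ i, |φ x i| ≤ k) ∧ ∀ᵐ x : X, k ∣ f x - dv σ φ x := by
  obtain ⟨l, l1, l2⟩ := toast hg hfree (loc_PD hg k) (Fz := fun a => (a 1).2)
    (fun a b h c => show (b 1).2 from (hg.loc h).1 ▸ c) (move_D hk)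
    ((Lm.const (0 : ι → ℤ)).comp₂ h2 Prod.mk)
    (Eventually.of_forall fun x => by simp [PD, oc, hk])
  refine ⟨fun x => (l x).1, l1.comp Prod.fst, ?_, ?_⟩
  · filter_upwards [l2] with x ⟨_, W, a, _⟩ i
    have := a.1 i
    simp only [oc, one_smul] at this
    rw [abs_le]
    omega
  · filter_upwards [l2] with x ⟨e, W, a, b⟩
    have c := a.2 b
    simp only [d1, oc, one_smul] at c e
    rwa [e] at c

end Pool.Agent.H.MP_28492a_gt
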