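import Pool.Agent.H.MP_28492a_gt.Torus

set_option autoImplicit false

namespace Pool.Agent.H.MP_28492a_gt

open Filter Topology MeasureTheory Set Multiplicative

variable {n : ℕ}

structure Nc (f : E n → ℕ) : Prop where
  lm : Lm f
  bd : Bd f
  sp : ∃ R : ℝ, ∀ᵐ x, f x ≠ 0 → ‖x‖ ≤ R

lemma setup (hn : 0 < n) {m : ℕ} (t : Fin m → E n) (R : ℝ) : ∃ (θ : ℝ) (_ : Fact (0 < θ)) (d : ℕ)
    (φ : (Fin (d + 2) → ℤ) →+ E n), (∀ x : E n, ‖x‖ ≤ R → x ∈ Fd n θ) ∧
    (∀ a, pj θ (φ a) = 0 → a = 0) ∧ ∀ j, ∃ a, φ a = t j := by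
  set e0 : E n := EuclideanSpace.single ⟨0, hn⟩ 1 with he0
  set S : Set (E n) := range t ∪ {e0, √2 • e0} with hS
  set Λ := Submodule.span ℤ S with hΛ
  haveI : Module.Finite ℤ Λ := Module.Finite.span_of_finite ℤ
    ((finite_range t).union (toFinite _))
  haveI : IsAddTorsionFree (E n) := .of_isTorsionFree ℝ _
  have li : LinearIndependent ℤ ![(⟨e0, Submodule.subset_span (by simp [hS])⟩ : Λ),
      ⟨√2 • e0, Submodule.subset_span (by simp [hS])⟩] := by
    rw [LinearIndependent.pair_iff]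
    intro s u h
    have := congrArg (fun v : Λ => (v : E n) ⟨0, hn⟩) h
    simp [he0] at this
    have hu : u = 0 := by
      by_contra c
      exact (irrational_sqrt_two.intCast_mul c).ne_int (-s) (by push_cast; linarith)
    simpa [hu] using this
  have h2 := li.fintype_card_le_finrank
  obtain ⟨d, hd⟩ := Nat.exists_eq_add_of_le' (show 2 ≤ _ from h2)
  set b := Module.finBasisOfFinrankEq ℤ Λ hd
  set φ : (Fin (d + 2) → ℤ) →+ E n :=
    (Λ.subtype ∘ₗ b.equivFun.symm.toLinearMap).toAddMonoidHom with hφ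
  have hc : (range fun p : (Fin (d + 2) → ℤ) × Fin n × ℤ => φ p.1 p.2.1 / p.2.2).Countable :=
    countable_range _
  obtain ⟨θ, h1, h3⟩ := (hc.dense_compl ℝ).exists_mem_open (isOpen_Ioi (a := 2 * |R|))
    nonempty_Ioi
  have h4 : 2 * |R| < θ := h3
  have h5 := abs_nonneg R
  have h6 := le_abs_self R
  refine ⟨θ, ⟨by linarith⟩, d, φ, fun x hx i => ?_, fun a ha => ?_, fun j =>
    ⟨b.equivFun ⟨t j, Submodule.subset_span (Or.inl ⟨j, rfl⟩)⟩, by simp [hφ]⟩⟩
  · have := abs_le.1 ((Real.norm_eq_abs _).symm.trans_le (PiLp.norm_apply_le x i))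
    constructor <;> linarith
  · have : φ a = 0 := by
      ext i
      obtain ⟨k, hk⟩ := (AddCircle.coe_eq_zero_iff θ).1 (congrFun ha i)
      rw [zsmul_eq_mul] at hk
      by_cases c : k = 0
      · simpa [c] using hk.symm
      · refine absurd ⟨(a, i, k), ?_⟩ h1
        have : (k : ℝ) ≠ 0 := by exact_mod_cast c
        dsimp only
        rw [← hk]
        field_simp
    exact b.equivFun.symm.map_eq_zero_iff.1 (Subtype.ext this)

section act

variable {θ : ℝ} [hθ : Fact (0 < θ)] {d : ℕ} (φ : (Fin (d + 2) → ℤ) →+ E n)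

@[reducible] noncomputable def act :
    MulAction (Multiplicative (Fin (d + 2) → ℤ)) (Fin n → AddCircle θ) where
  smul g y := pj θ (φ g.toAdd) + y
  one_smul y := by
    show pj θ (φ 0) + y = y
    rw [map_zero]
    funext i
    simp [pj]
  mul_smul g h y := by
    show pj θ (φ (g.toAdd + h.toAdd)) + y = pj θ (φ g.toAdd) + (pj θ (φ h.toAdd) + y)
    rw [map_add, pj_add, add_assoc]

lemma Nc.lf {f : (Fin n → AddCircle θ) → ℕ} (h1 : Lm f) (h2 : Bd f) : Nc (lf f) := by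
  obtain ⟨N, hN⟩ := h2
  obtain ⟨R, hR⟩ := (isBounded_iff_forall_norm_le (s := Fd n θ)).1 (by
    refine ((PiLp.homeomorph 2 fun _ : Fin n => ℝ).isCompact_preimage.2
      (isCompact_univ_pi fun _ => isCompact_Icc (a := -θ / 2) (b := -θ / 2 + θ))).isBounded.subset
      fun x hx i _ => Ioc_subset_Icc_self (hx i))
  refine ⟨h1.lf, ⟨N, ?_⟩, R, Eventually.of_forall fun x hx => hR x (by_contra fun c => hx
    (if_neg c))⟩
  filter_upwards [ae_pj hN] with x hx
  unfold MP_28492a_gt.lf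
  split_ifs with c
  exacts [hx c, Nat.zero_le _]

lemma lf_comb (F : ℕ → ℕ → ℕ) (hF : F 0 0 = 0) {u : E n → ℕ} (c : (Fin n → AddCircle θ) → ℕ)
    (hu : ∀ᵐ x, u x ≠ 0 → x ∈ Fd n θ) :
    ∀ᵐ x, lf (fun y => F (u (sec y)) (c y)) x = F (u x) (lf c x) := by
  filter_upwards [hu] with x hx
  unfold lf
  split_ifs with a
  · simp only [sec_pj a]
  · rw [show u x = 0 from by_contra fun b => a (hx b), hF]

end act

instance {d : ℕ} : Countable (Multiplicative (Fin d → ℤ)) := inferInstanceAs (Countable (Fin d → ℤ))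

theorem stabR (hn : 0 < n) {k : ℕ} (hk : 0 < k) {u v : E n → ℕ} (hu : Nc u) (hv : Nc v)
    (h : Eqd (Multiplicative (E n)) (fun x => k * u x) fun x => k * v x) :
    ∃ c, Nc c ∧ Eqd (Multiplicative (E n)) (fun x => u x + c x) fun x => v x + c x := by
  obtain ⟨m, t, π, h1, h2, h3⟩ := h
  obtain ⟨R, hR⟩ := hu.sp
  obtain ⟨R', hR'⟩ := hv.sp
  obtain ⟨θ, hθ, d, φ, s1, s2, s3⟩ := setup hn (fun j => (t j).toAdd) (max R R')
  letI := act (θ := θ) φ
  haveI : ContinuousConstSMul (Multiplicative (Fin (d + 2) → ℤ)) (Fin n → AddCircle θ) :=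
    ⟨fun g => continuous_const_add _⟩
  haveI : QI (Multiplicative (Fin (d + 2) → ℤ)) (Fin n → AddCircle θ) :=
    ⟨fun g => measurePreserving_add_left volume _⟩
  have su : ∀ᵐ x, u x ≠ 0 → x ∈ Fd n θ := hR.mono fun x a b => s1 x ((a b).trans (le_max_left _ _))
  have sv : ∀ᵐ x, v x ≠ 0 → x ∈ Fd n θ :=
    hR'.mono fun x a b => s1 x ((a b).trans (le_max_right _ _))
  obtain ⟨c, c1, c2, c3⟩ := stab_R (X := Fin n → AddCircle θ) geo_zd
    (fun g hg x e => hg (s2 g.toAdd (add_eq_right.1 e))) hk hu.lm.sec hv.lm.sec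
    (hu.bd.imp fun _ => ae_sec) (push_eqd (fun j => (s3 j).elim fun a e =>
      ⟨ofAdd a, fun y => by rw [← e]; rfl⟩) h1 h2 h3
      (su.mono fun x a b => a (right_ne_zero_of_mul b))
      (sv.mono fun x a b => a (right_ne_zero_of_mul b)))
  exact ⟨lf c, Nc.lf c1 c2, (lift_eqd (fun g => ⟨_, fun _ => rfl⟩) c3).congr
    (lf_comb (· + ·) rfl c su) (lf_comb (· + ·) rfl c sv)⟩

theorem stabD (hn : 0 < n) {k : ℕ} (hk : 0 < k) {p : E n → ℕ} (hp : Nc p) :
    ∃ m h, Nc m ∧ Nc h ∧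
      Eqd (Multiplicative (E n)) (fun x => p x + k * m x) fun x => k * h x := by
  obtain ⟨R, hR⟩ := hp.sp
  obtain ⟨θ, hθ, d, φ, s1, s2, -⟩ := setup hn Fin.elim0 R
  letI := act (θ := θ) φ
  haveI : ContinuousConstSMul (Multiplicative (Fin (d + 2) → ℤ)) (Fin n → AddCircle θ) :=
    ⟨fun g => continuous_const_add _⟩
  haveI : QI (Multiplicative (Fin (d + 2) → ℤ)) (Fin n → AddCircle θ) :=
    ⟨fun g => measurePreserving_add_left volume _⟩
  obtain ⟨m, h, c1, c2, c3, c4, c5⟩ := stab_D (X := Fin n → AddCircle θ) geo_zd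
    (fun g hg x e => hg (s2 g.toAdd (add_eq_right.1 e))) hk hp.lm.sec (hp.bd.imp fun _ => ae_sec)
  refine ⟨lf m, lf h, Nc.lf c1 c2, Nc.lf c3 c4, (lift_eqd (fun g => ⟨_, fun _ => rfl⟩) c5).congr
    (lf_comb (fun a b => a + k * b) rfl m (hR.mono fun x a b => s1 x (a b)))
    (Eventually.of_forall fun x => ?_)⟩
  unfold lf
  split_ifs <;> rfl

end Pool.Agent.H.MP_28492a_gt
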