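import Pool.Agent.H.MP_28492a_gt.Geo
import Pool.Agent.H.MP_28492a_gt.GL

set_option autoImplicit false

namespace Pool.Agent.H.MP_28492a_gt

open Filter Topology MeasureTheory
open Pool.Agent.H.MP_bf94fe_gt (Adj Conn small_nhds)

section grp

variable {G ι α β : Type} [Group G] {σ : ι → G} {ν : G → ℕ}

def Loc (ν : G → ℕ) (P : (G → α × Prop) → Prop) : Prop :=
  ∀ a b, (∀ g, ν g ≤ 1 → a g = b g) → P a → P b

def cfg (l : G → α) (W : Set G) (h : G) : G → α × Prop := fun g => (l (g * h), g * h ∈ W)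

variable (σ) in
structure Pat (W L K : Set G) : Prop where
  fin : K.Finite
  sub : L ⊆ K
  satL : ∀ u ∈ L, ∀ v ∈ W, Adj σ u v → v ∈ L
  satK : ∀ u ∈ K, ∀ v ∈ W, Adj σ u v → v ∈ K
  nb : ∀ a ∈ L, ∀ u, Adj σ a u → u ∈ K
  conL : ∀ u v, u ∉ L → v ∉ L → (∃ a ∈ L, Adj σ a u) → (∃ a ∈ L, Adj σ a v) →
    Conn σ (K \ (W ∪ L)) u v
  conW : ∀ u v, u ∉ W → v ∉ W → Conn σ Wᶜ u v
  out : ∃ w, w ∉ W ∧ w ∉ K

variable (σ) in
def Move (st : α → β) (P Fz : (G → α × Prop) → Prop) : Prop :=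
  ∀ (l : G → α) (W L K : Set G), Pat σ W L K → (∀ h, P (cfg l W h)) → ∃ l' : G → α,
    (∀ g, l' g ≠ l g → g ∈ K ∨ ∃ a ∈ K, Adj σ a g) ∧ (∀ g, st (l' g) = st (l g)) ∧
    (∀ h, P (cfg l' (W ∪ K) h)) ∧
    (∀ h, Fz (cfg l W h) → Fz (cfg l' (W ∪ K) h) ∧ l' h = l h) ∧
    ∀ h ∈ L, Fz (cfg l' (W ∪ K) h)

variable (σ ν) in
structure Sol (st : α → β) (P Fz : (G → α × Prop) → Prop) (l : G → α) (W : Set G) (n r ρ : ℕ)
    (K : Set G) (l' : G → α) : Prop where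
  k1 : ∀ g ∈ K, ν g ≤ r
  sat : ∀ u ∈ K, ∀ v ∈ W, Adj σ u v → v ∈ K
  det : ∀ u v, u ∉ K → v ∉ K → (∃ a ∈ K, Adj σ a u) → (∃ a ∈ K, Adj σ a v) →
    Conn σ ({g | ν g ≤ ρ} \ (W ∪ K)) u v
  sup : ∀ g, r + 1 < ν g → l' g = l g
  st : ∀ g, st (l' g) = st (l g)
  p : ∀ h, P (cfg l' (W ∪ K) h)
  fz : ∀ h, Fz (cfg l W h) → Fz (cfg l' (W ∪ K) h) ∧ l' h = l h
  new : ∀ h, ν h ≤ n → Fz (cfg l' (W ∪ K) h)

lemma exists_sol (hg : Geo σ ν) {st : α → β} {P Fz : (G → α × Prop) → Prop}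
    (mv : Move σ st P Fz) {l : G → α} {W : Set G} {s : ℕ} (hU : UU σ ν W s)
    (hP : ∀ h, P (cfg l W h)) (n : ℕ) :
    ∃ K l', Sol σ ν st P Fz l W n (n + 5 * s + 3) (n + 6 * s + 6) K l' := by
  obtain ⟨L, l1, l2, l3, l4⟩ := hU.grow hg n
  obtain ⟨K, k1, k2, k3, k4⟩ := hU.grow hg (n + 3 * s + 2)
  have nb : ∀ (A : Set G) m, (∀ g ∈ A, ν g ≤ m) → ∀ u, (∃ a ∈ A, Adj σ a u) → ν u ≤ m + 1 := by
    rintro A m h u ⟨a, ha, e⟩
    have := h a ha
    have := hg.le u a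
    have := hg.adj e
    omega
  have nW : ∀ (A : Set G), (∀ u ∈ A, ∀ v ∈ W, Adj σ u v → v ∈ A) → ∀ u, u ∉ A →
      (∃ a ∈ A, Adj σ a u) → u ∉ W ∪ A := by
    rintro A h u hu ⟨a, ha, e⟩ (c | c)
    exacts [hu (h a ha u c e), hu c]
  obtain ⟨l', m1, m2, m3, m4, m5⟩ := mv l W L K ⟨(hg.fin _).subset k2,
    fun g a => k1 g (by have := l2 g a; omega), l3, k3,
    fun a ha u e => k1 u (by have := nb L _ l2 u ⟨a, ha, e⟩; omega),
    fun u v hu hv u' v' => (l4 (n + 2 * s + 2) u v (by omega) (nb L _ l2 u u') (nb L _ l2 v v')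
      (nW L l3 u hu u') (nW L l3 v hv v')).mono fun g a =>
        ⟨k1 g (by have : ν g ≤ _ := a.1; omega), a.2⟩,
    fun u v hu hv => (hU.route hg (hg.con u v) hu hv).mono fun g a => a.2, by
      by_contra c
      push Not at c
      obtain ⟨g, g1⟩ := hg.unb (n + 5 * s + 3)
      obtain ⟨g', g2⟩ := hg.unb (ν g + s)
      have w : ∀ t, n + 5 * s + 3 < ν t → t ∈ W := fun t ht => by
        by_contra a
        have := k2 t (c t a)
        omega
      have := hU.u1 g g' (w g g1) ((hg.shell (n + 5 * s + 3) (ν g') g g' g1 (by omega) (by omega)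
        le_rfl).mono fun t a => w t a.1)
      have := hg.le g' g
      omega⟩ hP
  refine ⟨K, l', fun g a => by have := k2 g a; omega, k3, fun u v hu hv u' v' =>
    (k4 (n + 5 * s + 4) u v (by omega) (by have := nb K _ k2 u u'; omega)
      (by have := nb K _ k2 v v'; omega) (nW K k3 u hu u') (nW K k3 v hv v')).mono fun g a =>
        ⟨by have : ν g ≤ _ := a.1; show ν g ≤ _; omega, a.2⟩, fun g a => ?_, m2, m3, m4,
    fun h a => m5 h (l1 h a)⟩
  by_contra c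
  rcases m1 g c with b | b
  · have := k2 g b
    omega
  · have := nb K _ k2 g b
    omega

end grp

variable {X G ι α β : Type} [MetricSpace X] [MeasureSpace X] [BorelSpace X] [CompactSpace X]
  [IsFiniteMeasure (volume : Measure X)] [CommGroup G] [MulAction G X] [ContinuousConstSMul G X]
  [QI G X] {σ : ι → G} {ν : G → ℕ}

lemma exists_sep (hfree : ∀ g : G, g ≠ 1 → ∀ x : X, g • x ≠ x) {B : Set G} (hB : B.Finite)
    (h1 : 1 ∈ B) (hi : ∀ g ∈ B, g⁻¹ ∈ B) : ∃ V : Set X, Lm (· ∈ V) ∧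
      (∀ g ∈ B, ∀ y ∈ V, g • y ∈ V → g = 1) ∧ ∀ x : X, ∃ g ∈ B, g • x ∈ V := by
  haveI := hB.to_subtype
  have hU : ∀ x : X, ∃ U : Set X, IsOpen U ∧ x ∈ U ∧ Lm (· ∈ U) ∧
      ∀ g ∈ B, ∀ y ∈ U, g • y ∈ U → g = 1 := by
    intro x
    obtain ⟨U, u1, u2, -, u4⟩ := small_nhds hB (x := x) (fun g _ g' _ e => by
      by_contra ne
      exact hfree (g'⁻¹ * g) (fun c => ne (by rw [← mul_one g', ← c]; simp)) x
        (by rw [mul_smul, e, inv_smul_smul])) univ_mem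
    obtain ⟨r, r0, r1⟩ := Metric.isOpen_iff.1 u1 x u2
    obtain ⟨t, ⟨t0, t1⟩, t2⟩ := exists_null_frontier_thickening volume {x} r0
    rw [Metric.thickening_singleton] at t2
    have := (Metric.ball_subset_ball t1.le).trans r1
    exact ⟨Metric.ball x t, Metric.isOpen_ball, Metric.mem_ball_self t0, Lm.of_frontier t2,
      fun g hg y hy a => u4 g hg 1 h1 y (this hy) _ (this a) (by simp)⟩
  choose U u1 u2 u3 u4 using hU
  obtain ⟨t, ht⟩ := isCompact_univ.elim_finite_subcover U u1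
    fun x _ => Set.mem_iUnion.2 ⟨x, u2 x⟩
  suffices h : ∀ l : List X, ∃ V : Set X, Lm (· ∈ V) ∧ (∀ g ∈ B, ∀ y ∈ V, g • y ∈ V → g = 1) ∧
      ∀ p ∈ l, ∀ x ∈ U p, ∃ g ∈ B, g • x ∈ V by
    obtain ⟨V, v1, v2, v3⟩ := h t.toList
    refine ⟨V, v1, v2, fun x => ?_⟩
    obtain ⟨p, hp, hx⟩ := Set.mem_iUnion₂.1 (ht (Set.mem_univ x))
    exact v3 p (Finset.mem_toList.2 hp) x hx
  intro l
  induction l with
  | nil => exact ⟨∅, Lm.const False, by simp, by simp⟩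
  | cons p l ih =>
    obtain ⟨V, v1, v2, v3⟩ := ih
    refine ⟨V ∪ {x | x ∈ U p ∧ ∀ g : B, g.1 • x ∉ V}, v1.comp₂ ((u3 p).comp₂
      (Lm.pi fun g : B => v1.smul g.1) fun a b => a ∧ ∀ g, ¬ b g) Or, ?_, fun q hq x hx => ?_⟩
    · rintro g hg y (a | a) (b | b)
      · exact v2 g hg y a b
      · exact absurd (by simpa using a) (b.2 ⟨g⁻¹, hi g hg⟩)
      · exact absurd b (a.2 ⟨g, hg⟩)
      · exact u4 p g hg y a.1 b.1
    · rcases List.mem_cons.1 hq with rfl | hq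
      · by_cases c : ∀ g : B, g.1 • x ∉ V
        · exact ⟨1, h1, Or.inr (by rw [one_smul]; exact ⟨hx, c⟩)⟩
        · push Not at c
          obtain ⟨g, c⟩ := c
          exact ⟨g, g.2, Or.inl c⟩
      · obtain ⟨g, g1, g2⟩ := v3 q hq x hx
        exact ⟨g, g1, Or.inl g2⟩

variable (G) in
def oc (l : X → α) (W : X → Prop) (x : X) : G → α × Prop := fun g => (l (g • x), W (g • x))

variable (σ ν) in
structure TS (st : α → β) (P : (G → α × Prop) → Prop) (l0 l : X → α) (W : X → Prop) (s : ℕ) :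
    Prop where
  ll : Lm l
  lW : Lm W
  st : ∀ᵐ x : X, st (l x) = st (l0 x)
  uu : ∀ᵐ z : X, UU σ ν {g : G | W (g • z)} s
  p : ∀ᵐ x : X, P (oc G l W x)

omit [BorelSpace X] [CompactSpace X] [IsFiniteMeasure (volume : Measure X)] in
lemma Loc.lm (hg : Geo σ ν) {P : (G → α × Prop) → Prop} (h : Loc ν P) {l : X → α} {W : X → Prop}
    (h1 : Lm l) (h2 : Lm W) : Lm fun x => P (oc G l W x) := by
  haveI := (hg.fin 1).to_subtype
  filter_upwards [Lm.pi fun g : {g | ν g ≤ 1} => (h1.comp₂ h2 Prod.mk).smul g.1] with x hx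
  filter_upwards [hx] with y hy
  exact propext ⟨h _ _ fun g a => congrFun hy ⟨g, a⟩, h _ _ fun g a => (congrFun hy ⟨g, a⟩).symm⟩

variable [Countable G] [Nonempty X]

lemma TS.step (hg : Geo σ ν) (hfree : ∀ g : G, g ≠ 1 → ∀ x : X, g • x ≠ x) {st : α → β}
    {P Fz : (G → α × Prop) → Prop} (lP : Loc ν P) (lF : Loc ν Fz) (mv : Move σ st P Fz) {C : ℕ}
    (hC : ∀ n, 0 < n → ∃ T : Finset G, T.card ≤ C ∧
      ∀ g, ν g ≤ 4 * n → ∃ t ∈ T, ν (g * t⁻¹) ≤ n)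
    {l0 l : X → α} {W : X → Prop} {s : ℕ} (h : TS σ ν st P l0 l W s) :
    ∃ l' W' s', TS σ ν st P l0 l' W' s' ∧
      (∀ᵐ x : X, Fz (oc G l W x) → Fz (oc G l' W' x) ∧ l' x = l x) ∧
      C * volume {x | ¬ Fz (oc G l' W' x)} + volume {x | ¬ Fz (oc G l W x)} ≤
        C * volume {x | ¬ Fz (oc G l W x)} := by
  classical
  set n := 6 * s + 6 with hn
  set ρ := n + 6 * s + 6 with hρ
  set r := n + 5 * s + 3 with hr
  obtain ⟨T, t1, t2⟩ := hC n (by omega)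
  obtain ⟨V0, v1, v2, v3⟩ := exists_sep hfree (hg.fin (2 * ρ)) (by simp [hg.one])
    (fun g a => by simpa [hg.inv] using a)
  set N := {x | ¬ Fz (oc G l W x)} with hN
  set E : G → Set X := fun t => {x | ∃ g : {g | ν g ≤ n}, t • g.1⁻¹ • x ∈ V0} with hE
  obtain ⟨t, -, ht⟩ := T.exists_max_image (fun t => volume (N ∩ E t))
    ((t2 1 (by simp [hg.one])).imp fun _ a => a.1)
  have cov : volume N ≤ C * volume (N ∩ E t) := by
    have : N ⊆ ⋃ u ∈ T, N ∩ E u := fun x hx => by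
      obtain ⟨g, g1, g2⟩ := v3 x
      obtain ⟨u, u1, u2⟩ := t2 g (by have : ν g ≤ _ := g1; omega)
      refine Set.mem_biUnion u1 ⟨hx, ⟨(g * u⁻¹)⁻¹, by rwa [Set.mem_setOf_eq, hg.inv]⟩, ?_⟩
      rwa [inv_inv, ← mul_smul, mul_comm g, mul_inv_cancel_left]
    refine (measure_mono this).trans ((measure_biUnion_finset_le _ _).trans
      ((Finset.sum_le_card_nsmul _ _ _ ht).trans ?_))
    rw [nsmul_eq_mul]
    gcongr
  set V := {y | t • y ∈ V0} with hV
  have lV : Lm (· ∈ V) := v1.smul t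
  have sep : ∀ g, ν g ≤ 2 * ρ → ∀ y ∈ V, g • y ∈ V → g = 1 := fun g a y b c =>
    v2 g a _ b (by rwa [smul_comm])
  haveI := (hg.fin ρ).to_subtype
  haveI := (hg.fin n).to_subtype
  set Ω : X → Prop := fun y => UU σ ν {g : G | W (g • y)} s ∧ ∀ k : G, P (oc G l W (k • y))
    with hΩ
  have ce : ∀ (y : X) (k : G), cfg (fun g : G => l (g • y)) {g : G | W (g • y)} k =
      oc G l W (k • y) := fun y k => funext fun g => by simp [cfg, oc, mul_smul]
  have : ∀ y, ∃ K l', Ω y → Sol σ ν st P Fz (fun g : G => l (g • y)) {g : G | W (g • y)}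
      n r ρ K l' := fun y => by
    by_cases c : Ω y
    · obtain ⟨K, l', a⟩ := exists_sol hg mv c.1 (fun k => ce y k ▸ c.2 k) n
      exact ⟨K, l', fun _ => a⟩
    · exact ⟨∅, fun _ => l y, fun a => absurd a c⟩
  choose Ks ls sol using this
  set pat : X → {g | ν g ≤ ρ} → α × Prop := fun y g => oc G l W y g.1 with hpat
  set rep : X → X := fun y => Classical.epsilon fun y' => Ω y' ∧ pat y' = pat y with hrep
  have lr : Lm rep := (Lm.pi fun g : {g | ν g ≤ ρ} =>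
    (h.ll.comp₂ h.lW Prod.mk).smul g.1).comp fun a => Classical.epsilon fun y' => Ω y' ∧ pat y' = a
  have r1 : ∀ y, Ω y → Ω (rep y) ∧ ∀ g, ν g ≤ ρ → l (g • rep y) = l (g • y) ∧
      (W (g • rep y) ↔ W (g • y)) := fun y a => by
    have := Classical.epsilon_spec (p := fun y' => Ω y' ∧ pat y' = pat y) ⟨y, a, rfl⟩
    refine ⟨this.1, fun g b => ?_⟩
    have := Prod.mk.inj (congrFun this.2 ⟨g, b⟩)
    exact ⟨this.1, this.2.to_iff⟩
  set dat : X → {g | ν g ≤ ρ} → Prop × X := fun x g => (g.1⁻¹ • x ∈ V, rep (g.1⁻¹ • x)) with hdat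
  have ld : Lm dat := Lm.pi fun g => (lV.comp₂ lr Prod.mk).smul g.1⁻¹
  set l' : X → α := fun x =>
    if c : ∃ g, (dat x g).1 then ls (dat x c.choose).2 c.choose.1 else l x with hl'
  set W' : X → Prop := fun x => W x ∨ ∃ g, (dat x g).1 ∧ g.1 ∈ Ks (dat x g).2 with hW'
  have uq : ∀ (x : X) (g g' : G), ν g ≤ ρ → ν g' ≤ ρ → g⁻¹ • x ∈ V → g'⁻¹ • x ∈ V → g' = g := by
    intro x g g' a b c d
    have := hg.mul g'⁻¹ g
    rw [hg.inv] at this
    have := sep (g'⁻¹ * g) (by omega) _ c (by simpa [mul_smul] using d)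
    exact inv_mul_eq_one.1 this
  have e1 : ∀ (x : X) (g : G), ν g ≤ ρ → g⁻¹ • x ∈ V → l' x = ls (rep (g⁻¹ • x)) g ∧
      (W' x ↔ W x ∨ g ∈ Ks (rep (g⁻¹ • x))) := by
    intro x g a b
    have c : ∃ g, (dat x g).1 := ⟨⟨g, a⟩, b⟩
    have e := uq x g c.choose a c.choose.2 b c.choose_spec
    refine ⟨(dif_pos c).trans (by simp only [hdat, e]), or_congr_right ⟨fun ⟨g', p, q⟩ => ?_,
      fun p => ⟨⟨g, a⟩, b, p⟩⟩⟩
    have e := uq x g g' a g'.2 b p
    simpa only [hdat, e] using q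
  have e2 : ∀ x : X, (∀ g : G, ν g ≤ ρ → g⁻¹ • x ∉ V) → l' x = l x ∧ (W' x ↔ W x) := by
    intro x a
    have c : ¬ ∃ g, (dat x g).1 := fun ⟨g, b⟩ => a g g.2 b
    exact ⟨dif_neg c, or_iff_left fun ⟨g, b, _⟩ => c ⟨g, b⟩⟩
  have hae : ∀ᵐ z : X, ∀ k : G, Ω (k • z) := ae_all_iff.2 fun k => res_smul k
    (h.uu.and (ae_all_iff.2 fun k => res_smul k h.p))
  have cA : ∀ z : X, (∀ k : G, Ω (k • z)) → ∀ g0 : G, ν g0 + 1 ≤ ρ → g0⁻¹ • z ∈ V →
      ∃ y, Ω y ∧ ∀ g, ν g ≤ 1 → cfg (ls y) ({g : G | W (g • y)} ∪ Ks y) g0 g = oc G l' W' z g ∧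
        oc G l W z g = cfg (fun g : G => l (g • y)) {g : G | W (g • y)} g0 g := by
    intro z hz g0 a b
    obtain ⟨p, q⟩ := r1 _ (hz g0⁻¹)
    refine ⟨_, p, fun g c => ?_⟩
    have d : ν (g * g0) ≤ ρ := by have := hg.mul g g0; omega
    have e : (g * g0)⁻¹ • g • z = g0⁻¹ • z := by simp [mul_smul]
    have f := e1 (g • z) (g * g0) d (e ▸ b)
    have k := q _ d
    rw [e] at f
    rw [mul_smul g g0 (g0⁻¹ • z), smul_inv_smul] at k
    simp only [cfg, oc, Set.mem_union, Set.mem_setOf_eq, f.1, f.2, k.1, k.2, and_self]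
  have cB : ∀ z : X, (∀ k : G, Ω (k • z)) → (∀ g0 : G, ν g0 + 1 ≤ ρ → g0⁻¹ • z ∉ V) →
      ∀ g, ν g ≤ 1 → oc G l W z g = oc G l' W' z g := by
    intro z hz a g b
    by_cases c : ∀ g1 : G, ν g1 ≤ ρ → g1⁻¹ • g • z ∉ V
    · simp only [oc, (e2 _ c).1, (e2 _ c).2]
    push Not at c
    obtain ⟨g1, c1, c2⟩ := c
    have d : r + 1 < ν g1 := by
      by_contra d
      have := hg.mul g⁻¹ g1
      rw [hg.inv] at this
      exact a (g⁻¹ * g1) (by omega) (by simpa [mul_smul] using c2)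
    obtain ⟨p, q⟩ := r1 _ (mul_smul g1⁻¹ g z ▸ hz (g1⁻¹ * g))
    have f := e1 _ g1 c1 c2
    have k := (q g1 c1).1
    rw [smul_inv_smul] at k
    have : g1 ∉ Ks (rep (g1⁻¹ • g • z)) := fun m => by
      have := (sol _ p).k1 _ m
      omega
    simp only [oc, f.1, f.2, (sol _ p).sup g1 d, k, this, or_false]
  have one : ∀ {a b : X → α} {U U' : X → Prop} {z : X}, oc G a U z 1 = oc G b U' z 1 → a z = b z :=
    fun e => by simpa [oc] using congrArg Prod.fst e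
  have o1 : ν 1 ≤ 1 := by simp [hg.one]
  have fz : ∀ᵐ x : X, Fz (oc G l W x) → Fz (oc G l' W' x) ∧ l' x = l x := by
    filter_upwards [hae] with z hz f
    by_cases c : ∀ g0 : G, ν g0 + 1 ≤ ρ → g0⁻¹ • z ∉ V
    · exact ⟨lF _ _ (cB z hz c) f, (one (cB z hz c 1 o1)).symm⟩
    push Not at c
    obtain ⟨g0, c1, c2⟩ := c
    obtain ⟨y, y1, y2⟩ := cA z hz g0 c1 c2
    obtain ⟨a, b⟩ := (sol y y1).fz g0 (lF _ _ (fun g a => (y2 g a).2) f)
    refine ⟨lF _ _ (fun g a => (y2 g a).1) a, ?_⟩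
    have p := congrArg Prod.fst (y2 1 o1).1
    have q := congrArg Prod.fst (y2 1 o1).2
    simp only [cfg, oc, one_mul, one_smul] at p q
    rw [← p, b, q]
  refine ⟨l', W', s + 2 * ρ, ⟨h.ll.comp₂ ld fun a v =>
      if c : ∃ g, (v g).1 then ls (v c.choose).2 c.choose.1 else a,
    h.lW.comp₂ ld fun a v => a ∨ ∃ g, (v g).1 ∧ g.1 ∈ Ks (v g).2, ?_, ?_, ?_⟩, fz, ?_⟩
  · filter_upwards [hae, h.st] with z hz e
    rw [← e]
    by_cases c : ∀ g0 : G, ν g0 + 1 ≤ ρ → g0⁻¹ • z ∉ V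
    · rw [one (cB z hz c 1 o1)]
    push Not at c
    obtain ⟨g0, c1, c2⟩ := c
    obtain ⟨y, y1, y2⟩ := cA z hz g0 c1 c2
    have p := congrArg Prod.fst (y2 1 o1).1
    have q := congrArg Prod.fst (y2 1 o1).2
    simp only [cfg, oc, one_mul, one_smul] at p q
    rw [← p, (sol y y1).st, q]
  · filter_upwards [hae] with z hz
    have ag : ∀ y g : G, ν (g * y⁻¹) ≤ ρ → (W ((g * y⁻¹) • rep (y • z)) ↔ W (g • z)) :=
      fun y g a => by simpa [mul_smul] using ((r1 _ (hz y)).2 _ a).2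
    have := UU.step hg (W := {g : G | W (g • z)}) (Y := {y | y • z ∈ V}) (r := r) (ρ := ρ)
      (by simpa using (hz 1).1)
      (K := fun y => {g | g * y⁻¹ ∈ Ks (rep (y • z))}) (by omega)
      (fun y _ g a => (sol _ (r1 _ (hz y)).1).k1 _ a)
      (fun y a y' b c => mul_inv_eq_one.1 (sep _ c _ a (by simpa [mul_smul] using b)))
      (fun y _ u a v b e => (sol _ (r1 _ (hz y)).1).sat _ a _ ((ag y v (by
        have := (sol _ (r1 _ (hz y)).1).k1 _ a
        have := hg.tri v u y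
        have := hg.adj e
        omega)).2 b) (e.mul _))
      (fun y _ u v a b ⟨c, c1, c2⟩ ⟨d, d1, d2⟩ => by
        have := ((sol _ (r1 _ (hz y)).1).det _ _ a b ⟨_, c1, c2.mul _⟩ ⟨_, d1, d2.mul _⟩).mul
          (Q := {g | ν (g * y⁻¹) ≤ ρ} \ ({g : G | W (g • z)} ∪
            {g | g * y⁻¹ ∈ Ks (rep (y • z))})) y fun g a => by
            have b : ν (g * y * y⁻¹) ≤ ρ := by simpa using a.1
            refine ⟨b, fun c => a.2 (c.imp (fun c => ?_) fun c => by simpa using c)⟩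
            simpa using (ag y _ b).2 c
        simpa using this)
    convert this using 1
    ext g
    refine or_congr_right ⟨fun ⟨g0, a, b⟩ => ⟨g0.1⁻¹ * g, by simpa [mul_smul] using a,
      by simpa [mul_smul] using b⟩, fun ⟨y, a, b⟩ => ⟨⟨g * y⁻¹, by
        have := (sol _ (r1 _ (hz y)).1).k1 _ b
        show ν _ ≤ ρ
        omega⟩, by simpa [mul_smul, hdat] using a, by simpa [mul_smul, hdat] using b⟩⟩
  · filter_upwards [hae, h.p] with z hz f
    by_cases c : ∀ g0 : G, ν g0 + 1 ≤ ρ → g0⁻¹ • z ∉ V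
    · exact lP _ _ (cB z hz c) f
    push Not at c
    obtain ⟨g0, c1, c2⟩ := c
    obtain ⟨y, y1, y2⟩ := cA z hz g0 c1 c2
    exact lP _ _ (fun g a => (y2 g a).1) ((sol y y1).p g0)
  · have lE : NullMeasurableSet (E t) :=
      ((Lm.pi fun g : {g | ν g ≤ n} => lV.smul g.1⁻¹).comp fun a => ∃ g, a g).null
    have : volume {x | ¬ Fz (oc G l' W' x)} ≤ volume (N \ E t) := by
      refine measure_mono_ae ?_
      filter_upwards [hae, fz] with z hz f a
      refine ⟨fun b => a (f b).1, fun ⟨g0, b⟩ => a ?_⟩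
      have c : ν g0.1 ≤ n := g0.2
      obtain ⟨y, y1, y2⟩ := cA z hz g0 (by omega) b
      exact lF _ _ (fun g a => (y2 g a).1) ((sol y y1).new g0 c)
    conv_rhs => rw [← measure_inter_add_diff₀ N lE, mul_add, add_comm]
    gcongr

theorem toast (hg : Geo σ ν) (hfree : ∀ g : G, g ≠ 1 → ∀ x : X, g • x ≠ x) {st : α → β}
    {P Fz : (G → α × Prop) → Prop} (lP : Loc ν P) (lF : Loc ν Fz) (mv : Move σ st P Fz)
    {l0 : X → α} (h0 : Lm l0) (hP : ∀ᵐ x : X, P (oc G l0 (fun _ => False) x)) :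
    ∃ l : X → α, Lm l ∧ ∀ᵐ x : X, st (l x) = st (l0 x) ∧
      ∃ W : X → Prop, P (oc G l W x) ∧ Fz (oc G l W x) := by
  classical
  obtain ⟨C, hC⟩ := hg.cov
  have base : TS σ ν st P l0 l0 (fun _ => False) 0 :=
    ⟨h0, Lm.const _, Eventually.of_forall fun _ => rfl, Eventually.of_forall fun _ => uu_empty, hP⟩
  choose ln Wn sn s1 s2 s3 using
    fun q : {q : (X → α) × (X → Prop) × ℕ // TS σ ν st P l0 q.1 q.2.1 q.2.2} =>
      q.2.step hg hfree lP lF mv hC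
  let s : ℕ → {q : (X → α) × (X → Prop) × ℕ // TS σ ν st P l0 q.1 q.2.1 q.2.2} := fun n =>
    Nat.rec ⟨(l0, fun _ => False, 0), base⟩ (fun _ t => ⟨(ln t, Wn t, sn t), s1 t⟩) n
  set F : ℕ → X → Prop := fun j x => Fz (oc G (s j).1.1 (s j).1.2.1 x) with hF
  have a1 : ∀ᵐ x : X, ∃ j, F j x := by
    rw [ae_iff]
    set a := volume {x | ¬ ∃ j, F j x}
    have b : ∀ j : ℕ, C * volume {x | ¬ F j x} + j * a ≤ C * volume (Set.univ : Set X) := by
      intro j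
      induction j with
      | zero =>
        rw [Nat.cast_zero, zero_mul, add_zero]
        gcongr
        exact Set.subset_univ _
      | succ j ih =>
        refine le_trans ?_ ((add_le_add_left (s3 (s j)) _).trans ih)
        have : a ≤ volume {x | ¬ F j x} := measure_mono fun x hx c => hx ⟨j, c⟩
        rw [Nat.cast_succ, add_mul, one_mul, add_comm _ a, ← add_assoc]
        gcongr
    by_contra c
    obtain ⟨j, hj⟩ := ENNReal.exists_nat_mul_gt c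
      (ENNReal.mul_ne_top (ENNReal.natCast_ne_top C) (measure_ne_top (volume : Measure X) Set.univ))
    exact absurd (le_add_self.trans (b j)) (not_le.2 hj)
  have a2 : ∀ᵐ x : X, ∀ i j, i ≤ j → F i x → F j x ∧ (s j).1.1 x = (s i).1.1 x := by
    filter_upwards [ae_all_iff.2 fun j => s2 (s j)] with x hx i j hij f
    induction j, hij using Nat.le_induction with
    | base => exact ⟨f, rfl⟩
    | succ j _ ih => exact ⟨(hx j ih.1).1, (hx j ih.1).2.trans ih.2⟩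
  set l : X → α := fun x => if c : ∃ j, F j x then (s (Nat.find c)).1.1 x else l0 x with hl
  have a3 : ∀ᵐ x : X, ∃ j, ∀ i, j ≤ i → F i x ∧ l x = (s i).1.1 x := by
    filter_upwards [a1, a2] with x c hx
    exact ⟨Nat.find c, fun i hi => ⟨(hx _ i hi (Nat.find_spec c)).1, by
      simp only [hl, dif_pos c, (hx _ i hi (Nat.find_spec c)).2]⟩⟩
  refine ⟨l, ?_, ?_⟩
  · filter_upwards [a1, ae_all_iff.2 fun j => (lF.lm hg (s j).2.ll (s j).2.lW).and (s j).2.ll]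
      with x c hx
    filter_upwards [(hx (Nat.find c)).2, (eventually_all_finset
      (Finset.range (Nat.find c + 1))).2 fun j _ => (hx j).1] with y p q
    have q' : ∀ j ≤ Nat.find c, F j y = F j x := fun j a => q j (Finset.mem_range.2 (by omega))
    have c' : ∃ j, F j y := ⟨_, (q' _ le_rfl).symm ▸ Nat.find_spec c⟩
    have e : Nat.find c' = Nat.find c := (Nat.find_eq_iff _).2 ⟨(q' _ le_rfl).symm ▸
      Nat.find_spec c, fun j a => (q' j a.le).symm ▸ Nat.find_min c a⟩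
    simp only [hl, dif_pos c, dif_pos c', e, p]
  · filter_upwards [ae_all_iff.2 fun g : G => res_smul g a3,
      ae_all_iff.2 fun j => (s j).2.st.and (s j).2.p] with x hx hy
    choose j hj using hx
    obtain ⟨i, hi⟩ := ((hg.fin 1).image j).bddAbove
    have e : ∀ g, ν g ≤ 1 → oc G (s i).1.1 (s i).1.2.1 x g = oc G l (s i).1.2.1 x g :=
      fun g a => by simp only [oc, (hj g i (hi ⟨g, a, rfl⟩)).2]
    have o := hj 1 i (hi ⟨1, by simp [hg.one], rfl⟩)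
    rw [one_smul] at o
    exact ⟨o.2 ▸ (hy i).1, _, lP _ _ e (hy i).2, lF _ _ e o.1⟩

end Pool.Agent.H.MP_28492a_gt
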