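import Pool.Agent.H.MP_28492a_gt.Geo

set_option autoImplicit false

namespace Pool.Agent.H.MP_28492a_gt

open Finset Relation Multiplicative
open Pool.Agent.H.MP_bf94fe_gt (Adj Conn)

variable {ι : Type} [Fintype ι] [DecidableEq ι]

def zs (i : ι) : Multiplicative (ι → ℤ) := ofAdd (Pi.single i 1)

def zn (g : Multiplicative (ι → ℤ)) : ℕ := univ.sup fun i => (g.toAdd i).natAbs

omit [DecidableEq ι] in
lemma zn_le {g : Multiplicative (ι → ℤ)} {n : ℕ} : zn g ≤ n ↔ ∀ i, (g.toAdd i).natAbs ≤ n := by
  simp [zn]

omit [DecidableEq ι] in
lemma le_zn (g : Multiplicative (ι → ℤ)) (i : ι) : (g.toAdd i).natAbs ≤ zn g := zn_le.1 le_rfl i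

omit [Fintype ι] in
lemma raise {Q : Set (Multiplicative (ι → ℤ))} {N : ℤ} (S : Finset ι) : ∀ u : ι → ℤ,
    (∀ j, u j ≤ N) → (∀ v : ι → ℤ, (∀ j, u j ≤ v j ∧ v j ≤ N) → (∀ j ∉ S, v j = u j) → ofAdd v ∈ Q) →
    Conn zs Q (ofAdd u) (ofAdd fun j => if j ∈ S then N else u j) := by
  induction S using Finset.induction_on with
  | empty =>
    intro u _ _
    simp only [notMem_empty, if_false]
    exact ReflTransGen.refl
  | insert i S hi ih =>
    intro u hu hQ
    have line : ∀ t : ℕ, u i + t ≤ N →
        Conn zs Q (ofAdd u) (ofAdd (Function.update u i (u i + t))) := by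
      have m : ∀ t : ℕ, u i + t ≤ N → ofAdd (Function.update u i (u i + t)) ∈ Q := fun t ht =>
        hQ _ (fun j => by
          by_cases e : j = i
          · subst e
            simp [ht]
          · simp [e, hu j]) fun j hj => Function.update_of_ne (fun e => hj (by simp [e])) _ _
      intro t
      induction t with
      | zero =>
        intro _
        simp only [Nat.cast_zero, add_zero, Function.update_eq_self]
        exact ReflTransGen.refl
      | succ t ih =>
        intro ht
        refine (ih (by omega)).trans (Conn.step (m t (by omega)) (m _ ht) ⟨i, Or.inl ?_⟩)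
        rw [zs, ← ofAdd_add]
        congr 1
        funext j
        by_cases e : j = i
        · subst e
          simp
          ring
        · simp [e]
    have := line (N - u i).toNat (by have := hu i; omega)
    rw [show u i + (N - u i).toNat = N by have := hu i; omega] at this
    refine this.trans ?_
    have := ih (Function.update u i N) (fun j => by
      by_cases e : j = i
      · simp [e]
      · simp [e, hu j]) fun v h1 h2 => hQ v (fun j => ⟨le_trans (by
        by_cases e : j = i
        · simp [e, hu i]
        · simp [e]) (h1 j).1, (h1 j).2⟩) fun j hj => by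
          rw [mem_insert, not_or] at hj
          rw [h2 j hj.2, Function.update_of_ne hj.1]
    convert this using 3 with j
    by_cases e : j = i
    · simp [e]
    · simp [e]

theorem geo_zd [Nontrivial ι] : Geo (zs (ι := ι)) zn where
  mul g h := zn_le.2 fun i => by
    have := le_zn g i
    have := le_zn h i
    simp only [toAdd_mul, Pi.add_apply]
    omega
  inv g := by simp [zn]
  one := by simp [zn]
  gen i := zn_le.2 fun j => by
    simp only [zs, toAdd_ofAdd, Pi.single_apply]
    split_ifs <;> simp
  fin n := ((Set.Finite.pi' fun _ : ι => Set.finite_Icc (-(n : ℤ)) n).image ofAdd).subset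
    fun g hg => ⟨g.toAdd, fun i => by
      have := zn_le.1 hg i
      constructor <;> omega, rfl⟩
  shell m N := by
    have : ∀ u, m < zn u → zn u ≤ N →
        Conn zs {g | m < zn g ∧ zn g ≤ N} u (ofAdd fun _ : ι => (N : ℤ)) := by
      intro u h1 h2
      have hN := zn_le.1 h2
      obtain ⟨i, hi⟩ : ∃ i, m < (u.toAdd i).natAbs := by
        by_contra c
        push Not at c
        exact absurd (zn_le.2 c) (by omega)
      obtain ⟨j, hj⟩ := exists_ne i
      have a := raise (Q := {g | m < zn g ∧ zn g ≤ N}) (N := N) (univ.erase i) u.toAdd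
        (fun j => by have := hN j; omega) fun v v1 v2 => ⟨lt_of_lt_of_le (by
          simpa [v2 i (by simp)] using hi) (le_zn _ i), zn_le.2 fun j => by
            have := v1 j
            have := hN j
            simp only [toAdd_ofAdd]
            omega⟩
      have b := raise (Q := {g | m < zn g ∧ zn g ≤ N}) (N := N) {i}
        (fun j => if j ∈ univ.erase i then (N : ℤ) else u.toAdd j)
        (fun j => by have := hN j; split_ifs <;> omega) fun v v1 v2 => ⟨lt_of_lt_of_le (by
          have := v2 j (by simpa using hj)
          simp only [toAdd_ofAdd, this, mem_erase, ne_eq, hj, not_false_eq_true, mem_univ,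
            and_self, if_true]
          omega) (le_zn _ j), zn_le.2 fun j => by
            have := v1 j
            have := hN j
            simp only [toAdd_ofAdd]
            split_ifs at * <;> omega⟩
      refine Conn.trans a ?_
      convert b using 3 with j
      by_cases e : j = i <;> simp [e]
    exact fun u v a b c d => (this u a b).trans (this v c d).symm
  unb n := by
    obtain ⟨i, -⟩ := exists_pair_ne ι
    exact ⟨ofAdd fun _ => n + 1, lt_of_lt_of_le (by simp only [toAdd_ofAdd]; omega) (le_zn _ i)⟩
  con u v := by
    have : ∀ u : Multiplicative (ι → ℤ), ∀ N : ℕ, zn u ≤ N →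
        Conn zs Set.univ u (ofAdd fun _ : ι => (N : ℤ)) := fun u N h => by
      simpa using raise (Q := Set.univ) (N := N) univ u.toAdd
        (fun j => by have := zn_le.1 h j; omega) fun _ _ _ => trivial
    exact (this u _ (le_max_left _ _)).trans (this v _ (le_max_right _ _)).symm
  cov := by
    refine ⟨(Fintype.piFinset fun _ : ι => Icc (-4 : ℤ) 4).card, fun n hn =>
      ⟨(Fintype.piFinset fun _ : ι => Icc (-4 : ℤ) 4).image fun t => ofAdd fun i => n * t i,
        card_image_le, fun g hg => ⟨_, mem_image_of_mem _ (Fintype.mem_piFinset.2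
          (show ∀ i, g.toAdd i / n ∈ Icc (-4 : ℤ) 4 from fun i => ?_)), zn_le.2 fun i => ?_⟩⟩⟩
    · have := zn_le.1 hg i
      have h0 : (0 : ℤ) < n := by exact_mod_cast hn
      exact mem_Icc.2 ⟨(Int.le_ediv_iff_mul_le h0).2 (by omega),
        Int.ediv_le_of_le_mul h0 (by omega)⟩
    · have h0 : (0 : ℤ) < n := by exact_mod_cast hn
      have := Int.emod_nonneg (g.toAdd i) h0.ne'
      have := Int.emod_lt_of_pos (g.toAdd i) h0
      rw [Int.emod_def] at *
      simp only [toAdd_mul, toAdd_inv, toAdd_ofAdd, Pi.add_apply, Pi.neg_apply]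
      omega

end Pool.Agent.H.MP_28492a_gt
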