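import Pool.Agent.H.MP_28492a_gt.Flow
import Pool.Agent.H.MP_28492a_gt.Zd

set_option autoImplicit false

namespace Pool.Agent.H.MP_28492a_gt

open Filter Topology MeasureTheory Set Multiplicative

abbrev E (n : ℕ) := EuclideanSpace ℝ (Fin n)

variable {n : ℕ}

instance : QI (Multiplicative (E n)) (E n) := ⟨fun g => measurePreserving_add_left volume g.toAdd⟩

instance : ContinuousConstSMul (Multiplicative (E n)) (E n) :=
  ⟨fun g => continuous_const_add g.toAdd⟩

def Bx (a : Fin n → ℝ) (θ : ℝ) : Set (E n) := {x | ∀ i, x i ∈ Ioc (a i) (a i + θ)}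

lemma Bx_eq (a : Fin n → ℝ) (θ : ℝ) :
    Bx a θ = WithLp.ofLp ⁻¹' (univ.pi fun i => Ioc (a i) (a i + θ)) := by
  ext x
  simp [Bx]

lemma Bx_meas (a : Fin n → ℝ) (θ : ℝ) : MeasurableSet (Bx a θ) :=
  Bx_eq a θ ▸ (PiLp.volume_preserving_ofLp (Fin n)).measurable
    (MeasurableSet.univ_pi fun _ => measurableSet_Ioc)

lemma Bx_vol (a : Fin n → ℝ) (θ : ℝ) : volume (Bx a θ) = ENNReal.ofReal θ ^ n := by
  rw [Bx_eq, (PiLp.volume_preserving_ofLp (Fin n)).measure_preimage
    (MeasurableSet.univ_pi fun _ => measurableSet_Ioc).nullMeasurableSet, volume_pi_pi]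
  simp

lemma ae_ne (i : Fin n) (c : ℝ) : ∀ᵐ x : E n, x i ≠ c :=
  (PiLp.volume_preserving_ofLp (Fin n)).quasiMeasurePreserving.tendsto_ae.eventually
    (Measure.ae_eval_ne (fun _ => volume) i c)

lemma lm_le (i : Fin n) (c : ℝ) : Lm fun x : E n => x i ≤ c := by
  filter_upwards [ae_ne i c] with x hx
  have h : Continuous fun x : E n => x i := by fun_prop
  rcases lt_or_gt_of_ne hx with a | a
  · filter_upwards [(isOpen_lt h continuous_const).mem_nhds a] with y hy
    exact propext ⟨fun _ => a.le, fun _ => le_of_lt hy⟩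
  · filter_upwards [(isOpen_lt continuous_const h).mem_nhds a] with y hy
    exact propext ⟨fun b => absurd hy (not_lt.2 b), fun b => absurd a (not_lt.2 b)⟩

lemma lm_Bx (a : Fin n → ℝ) (θ : ℝ) : Lm (· ∈ Bx a θ) := by
  have := (Lm.pi fun i => (lm_le i (a i)).comp₂ (lm_le i (a i + θ)) fun p q => ¬ p ∧ q).comp
    fun v => ∀ i, v i
  simp only [not_le] at this
  exact this

variable {θ : ℝ} [hθ : Fact (0 < θ)]

variable (θ) in
def pj (x : E n) : Fin n → AddCircle θ := fun i => (x i : AddCircle θ)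

variable (n θ) in
def Fd : Set (E n) := Bx (fun _ => -θ / 2) θ

noncomputable def sec (y : Fin n → AddCircle θ) : E n :=
  WithLp.toLp 2 fun i => (AddCircle.equivIoc θ (-θ / 2) (y i) : ℝ)

omit hθ in
lemma pj_add (x y : E n) : pj θ (x + y) = pj θ x + pj θ y := funext fun i => by simp [pj]

omit hθ in
lemma pj_neg (x : E n) : pj θ (-x) = -pj θ x := funext fun i => by simp [pj]

omit hθ in
lemma pj_cont : Continuous (pj θ (n := n)) :=
  continuous_pi fun i => (AddCircle.continuous_mk' θ).comp (by fun_prop)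

lemma sec_mem (y : Fin n → AddCircle θ) : sec y ∈ Fd n θ := fun _ => Subtype.property _

lemma pj_sec (y : Fin n → AddCircle θ) : pj θ (sec y) = y :=
  funext fun _ => AddCircle.coe_equivIoc

lemma sec_pj {x : E n} (hx : x ∈ Fd n θ) : sec (pj θ x) = x := by
  ext i
  exact AddCircle.equivIoc_coe_of_mem (hx i)

lemma pj_mp : MeasurePreserving (pj θ) (volume.restrict (Fd n θ)) volume := by
  have := (measurePreserving_pi (fun _ : Fin n => volume.restrict (Ioc (-θ / 2) (-θ / 2 + θ)))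
    (fun _ => volume) fun _ => AddCircle.measurePreserving_mk θ (-θ / 2))
  rw [← Measure.restrict_pi_pi] at this
  rw [Fd, Bx_eq]
  exact this.comp ((PiLp.volume_preserving_ofLp (Fin n)).restrict_preimage
    (MeasurableSet.univ_pi fun _ => measurableSet_Ioc))

lemma ae_pj {p : (Fin n → AddCircle θ) → Prop} (h : ∀ᵐ y, p y) :
    ∀ᵐ x : E n, x ∈ Fd n θ → p (pj θ x) :=
  (ae_restrict_iff' (Bx_meas _ _)).1 (pj_mp.quasiMeasurePreserving.tendsto_ae.eventually h)

lemma ae_sec {p : E n → Prop} (h : ∀ᵐ x, p x) : ∀ᵐ y : Fin n → AddCircle θ, p (sec y) := by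
  have ms : Measurable (sec (n := n) (θ := θ)) :=
    (PiLp.volume_preserving_toLp (Fin n)).measurable.comp (measurable_pi_lambda _ fun i =>
      measurable_subtype_coe.comp ((AddCircle.measurableEquivIoc θ (-θ / 2)).measurable.comp
        (measurable_pi_apply i)))
  obtain ⟨N, n1, n2, n3⟩ := exists_measurable_superset_of_null (ae_iff.1 h)
  refine measure_mono_null (t := sec ⁻¹' N) (fun y hy => n1 hy) ?_
  rw [← pj_mp.measure_preimage (ms n2).nullMeasurableSet, Measure.restrict_apply' (show MeasurableSet (Fd n θ) from Bx_meas _ _)]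
  exact measure_mono_null (fun x hx => sec_pj hx.2 ▸ hx.1) n3

lemma Lm.sec {α : Type} {f : E n → α} (h : Lm f) : Lm fun y : Fin n → AddCircle θ => f (sec y) := by
  filter_upwards [ae_sec (h.and (eventually_all.2 fun i => ae_ne i (-θ / 2 + θ)))] with y hy
  refine Tendsto.eventually (f := MP_28492a_gt.sec) (p := fun x => f x = _) ?_ hy.1
  refine (PiLp.continuous_toLp 2 _).continuousAt.comp (continuousAt_pi.2 fun i =>
    continuous_subtype_val.continuousAt.comp ((AddCircle.continuousAt_equivIoc θ _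
      fun e => hy.2 i ?_).comp (f := fun y : Fin n → AddCircle θ => y i)
        (continuous_apply i).continuousAt))
  show (AddCircle.equivIoc θ (-θ / 2) (y i) : ℝ) = _
  rw [e, ← AddCircle.coe_add_period]
  exact AddCircle.equivIoc_coe_of_mem ⟨by linarith [hθ.out], le_rfl⟩

open Classical in
noncomputable def lf (f : (Fin n → AddCircle θ) → ℕ) (x : E n) : ℕ :=
  if x ∈ Fd n θ then f (pj θ x) else 0

lemma Lm.lf {f : (Fin n → AddCircle θ) → ℕ} (h : Lm f) : Lm (lf f) := by
  filter_upwards [ae_pj h, lm_Bx (fun _ => -θ / 2) θ] with x a b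
  by_cases c : x ∈ Fd n θ
  · filter_upwards [b, pj_cont.continuousAt.eventually (a c)] with y d e
    exact (if_pos (d.mpr c)).trans (e.trans (if_pos c).symm)
  · filter_upwards [b] with y d
    exact (if_neg fun e => c (d.mp e)).trans (if_neg c).symm

lemma fib_finite (τ : Fin n → AddCircle θ) :
    {t : E n | pj θ t = τ ∧ ∃ x ∈ Fd n θ, t + x ∈ Fd n θ}.Finite := by
  refine ((Finite.pi' fun _ : Fin n => finite_Icc (-1 : ℤ) 1).image
    fun m => sec τ + WithLp.toLp 2 fun i => m i * θ).subset ?_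
  rintro t ⟨h, x, h1, h2⟩
  have : ∀ i, ∃ m : ℤ, m ∈ Icc (-1 : ℤ) 1 ∧ t i = sec τ i + m * θ := fun i => by
    have e := congrFun (h.trans (pj_sec τ).symm) i
    rw [pj, pj, ← sub_eq_zero, ← AddCircle.coe_sub, AddCircle.coe_eq_zero_iff] at e
    obtain ⟨m, hm⟩ := e
    rw [zsmul_eq_mul] at hm
    have a1 := h1 i
    have a2 := h2 i
    have a3 := sec_mem τ i
    simp only [mem_Ioc, PiLp.add_apply] at a1 a2 a3
    have h0 := hθ.out
    have b1 : (m : ℝ) < 2 := by nlinarith
    have b2 : (-2 : ℝ) < m := by nlinarith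
    have b1' : m < 2 := by exact_mod_cast b1
    have b2' : -2 < m := by exact_mod_cast b2
    exact ⟨m, ⟨by omega, by omega⟩, by linarith⟩
  choose m m1 m2 using this
  exact ⟨m, m1, by ext i; simp [m2]⟩

variable {G : Type} [Group G] [MulAction G (Fin n → AddCircle θ)]

lemma lift_eqd (hG : ∀ g : G, ∃ τ, ∀ y : Fin n → AddCircle θ, g • y = τ + y)
    {a b : (Fin n → AddCircle θ) → ℕ} (h : Eqd G a b) :
    Eqd (Multiplicative (E n)) (lf a) (lf b) := by
  classical
  obtain ⟨m, γ, π, h1, h2, h3⟩ := h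
  choose τ hτ using hG
  have iv : ∀ (g : G) y, g⁻¹ • y = -τ g + y := fun g y => by
    rw [inv_smul_eq_iff, hτ, add_neg_cancel_left]
  refine Eqd.mk' (I := Σ i : Fin m, (fib_finite (τ (γ i))).toFinset) (fun j => ofAdd j.2.1)
    (fun j x => if j.2.1 + x ∈ Fd n θ then lf (π j.1) x else 0)
    (fun j => ((lm_Bx _ _).smul (ofAdd j.2.1)).comp₂ (h1 j.1).lf fun p v => if p then v else 0)
    ?_ ?_
  · filter_upwards [ae_pj h2] with x hx
    by_cases c : x ∈ Fd n θ
    swap
    · simp [lf, c]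
    rw [Fintype.sum_sigma, lf, if_pos c, ← hx c]
    refine Finset.sum_congr rfl fun i _ => ?_
    have e : sec (τ (γ i) + pj θ x) - x + x ∈ Fd n θ := by simpa using sec_mem _
    have mem : sec (τ (γ i) + pj θ x) - x ∈ (fib_finite (τ (γ i))).toFinset :=
      (Finite.mem_toFinset _).2
        ⟨by rw [sub_eq_add_neg, pj_add, pj_neg, pj_sec]; simp, x, c, e⟩
    refine (Fintype.sum_eq_single ⟨_, mem⟩ fun t ne => if_neg fun d => ne (Subtype.ext ?_)).trans
      ((if_pos e).trans (if_pos c))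
    show t.1 = sec (τ (γ i) + pj θ x) - x
    rw [eq_sub_iff_add_eq, ← sec_pj d, pj_add, ((Finite.mem_toFinset _).1 t.2).1]
  · filter_upwards [ae_pj h3] with x hx
    have s : ∀ t : E n, (ofAdd t)⁻¹ • x = -t + x := fun _ => rfl
    simp only [s, add_neg_cancel_left]
    by_cases c : x ∈ Fd n θ
    swap
    · simp [lf, c]
    rw [Fintype.sum_sigma, lf, if_pos c, ← hx c]
    refine Finset.sum_congr rfl fun i _ => ?_
    simp only [if_pos c]
    have mem : x - sec (-τ (γ i) + pj θ x) ∈ (fib_finite (τ (γ i))).toFinset :=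
      (Finite.mem_toFinset _).2 ⟨by rw [sub_eq_add_neg, pj_add, pj_neg, pj_sec]; simp, _,
        sec_mem (-τ (γ i) + pj θ x), by simpa using c⟩
    refine (Fintype.sum_eq_single ⟨_, mem⟩ fun t ne => if_neg fun d => ne (Subtype.ext ?_)).trans ?_
    · show t.1 = x - sec (-τ (γ i) + pj θ x)
      have e : -τ (γ i) + pj θ x = pj θ (-t.1 + x) := by
        rw [pj_add, pj_neg, ((Finite.mem_toFinset _).1 t.2).1]
      rw [e, sec_pj d]
      simp
    · simp [lf, sec_mem, pj_sec, iv]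

lemma push_eqd [ContinuousConstSMul G (Fin n → AddCircle θ)] [QI G (Fin n → AddCircle θ)]
    {m : ℕ} {t : Fin m → Multiplicative (E n)} {π : Fin m → E n → ℕ} {a b : E n → ℕ}
    (hG : ∀ j, ∃ g : G, ∀ y : Fin n → AddCircle θ, g • y = pj θ (t j).toAdd + y)
    (h1 : ∀ j, Lm (π j)) (h2 : ∀ᵐ x, ∑ j, π j x = a x) (h3 : ∀ᵐ x, ∑ j, π j ((t j)⁻¹ • x) = b x)
    (sa : ∀ᵐ x, a x ≠ 0 → x ∈ Fd n θ) (sb : ∀ᵐ x, b x ≠ 0 → x ∈ Fd n θ) :
    Eqd G (fun y : Fin n → AddCircle θ => a (sec y)) fun y => b (sec y) := by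
  choose γ hγ using hG
  have sp : ∀ j, ∀ᵐ x, π j x ≠ 0 → x ∈ Fd n θ ∧ t j • x ∈ Fd n θ := fun j => by
    filter_upwards [h2, sa, res_smul (t j) (h3.and sb)] with x e1 e2 e3 c
    have l1 := Finset.single_le_sum (f := fun j => π j x) (fun _ _ => Nat.zero_le _)
      (Finset.mem_univ j)
    have l2 := Finset.single_le_sum (f := fun i => π i ((t i)⁻¹ • t j • x))
      (fun _ _ => Nat.zero_le _) (Finset.mem_univ j)
    rw [inv_smul_smul, e3.1] at l2
    exact ⟨e2 (by omega), e3.2 (by omega)⟩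
  refine ⟨m, γ, fun j y => π j (sec y), fun j => (h1 j).sec, ae_sec h2, ?_⟩
  filter_upwards [ae_sec h3, eventually_all.2 fun j => ae_sec (res_smul (t j)⁻¹ (sp j)),
    eventually_all.2 fun j => res_smul (γ j)⁻¹ (ae_sec (sp j))] with y e1 e2 e3
  rw [← e1]
  refine Finset.sum_congr rfl fun j _ => ?_
  have e : (γ j)⁻¹ • y = pj θ ((t j)⁻¹ • sec y) := by
    rw [inv_smul_eq_iff, hγ, ← pj_add]
    exact (pj_sec y).symm.trans (congrArg _ (add_neg_cancel_left _ _).symm)
  by_cases c : (t j)⁻¹ • sec y ∈ Fd n θ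
  · rw [e, sec_pj c]
  have z : π j ((t j)⁻¹ • sec y) = 0 := by_contra fun d => c (e2 j d).1
  rw [z]
  by_contra d
  have := sec_pj (e3 j d).2
  rw [show pj θ (t j • sec ((γ j)⁻¹ • y)) = y from (pj_add _ _).trans (by
    rw [pj_sec, ← hγ, smul_inv_smul])] at this
  exact c (by rw [this, inv_smul_smul]; exact sec_mem _)

end Pool.Agent.H.MP_28492a_gt
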